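import Pool.Agent.U10.Sha.Tate

/-!
The local conditions for the Tate-Shafarevich groups of an elliptic curve over the extensions of a
field.
-/

set_option linter.unusedSectionVars false
set_option linter.style.haveILetI false

namespace Pool.Agent.U10.Sha

open WeierstrassCurve

/-- Local constancy of a cocycle follows from that of its restriction to an open subgroup. -/
theorem lc_idx {G M : Type*} [Group G] [TopologicalSpace G] [IsTopologicalGroup G]
    [AddCommGroup M] {a : G →* AddMonoid.End M} {N H : Subgroup G} (h : N ≤ H)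
    (hop : IsOpen (N : Set G)) {f : H → M} (hf : IsCoc a H f) (hl : IsLocallyConstant (rs h f)) :
    IsLocallyConstant f := by
  rw [IsLocallyConstant.iff_exists_open]
  intro x
  have h0 : f 1 = 0 := by
    have h1 := hf 1 1
    rw [mul_one] at h1
    have h2 : a ((1 : H) : G) (f 1) = f 1 := by
      rw [Subgroup.coe_one, map_one]
      rfl
    rw [h2] at h1
    exact left_eq_add.1 h1
  have h1 : IsOpen {n : N | rs h f n = 0} := hl.isOpen_fiber 0
  have h2 : IsOpen ((fun n : N => (n : G)) '' {n : N | rs h f n = 0}) :=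
    (hop.isOpenEmbedding_subtypeVal.isOpenMap) _ h1
  refine ⟨{y : H | ((x : G)⁻¹ * y) ∈ (fun n : N => (n : G)) '' {n : N | rs h f n = 0}}, ?_, ?_, ?_⟩
  · exact h2.preimage (continuous_const.mul continuous_subtype_val)
  · refine ⟨1, ?_, ?_⟩
    · change f (Subgroup.inclusion h 1) = 0
      rw [map_one, h0]
    · simp
  · rintro y ⟨n, hn, hny⟩
    have h3 : y = x * Subgroup.inclusion h n := by
      apply Subtype.ext
      change (y : G) = x * n
      have h4 : (n : G) = (x : G)⁻¹ * y := hny
      rw [h4, mul_inv_cancel_left]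
    have h5 : f (Subgroup.inclusion h n) = 0 := hn
    rw [h3, hf, h5, map_zero, add_zero]

section

variable {k : Type*} [Field k]

/-- The group `E(F)` of the points of the Weierstrass curve `W` with coordinates in `F`. -/
def Pts (W : WeierstrassCurve k) (F : Type*) [Field F] [Algebra k F] : Type _ :=
  (W.baseChange F).toAffine.Point

open Classical in
noncomputable instance instPts (W : WeierstrassCurve k) (F : Type*) [Field F] [Algebra k F] :
    AddCommGroup (Pts W F) :=
  (inferInstance : AddCommGroup (W.baseChange F).toAffine.Point)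

open Classical in
/-- The map of points given by a homomorphism of fields. -/
noncomputable def pm (W : WeierstrassCurve k) {F F' : Type*} [Field F] [Algebra k F] [Field F']
    [Algebra k F'] (φ : F →ₐ[k] F') : Pts W F →+ Pts W F' :=
  Affine.Point.map (W' := W) φ

theorem pm_pm (W : WeierstrassCurve k) {F F' F'' : Type*} [Field F] [Algebra k F] [Field F']
    [Algebra k F'] [Field F''] [Algebra k F''] (φ : F →ₐ[k] F') (ψ : F' →ₐ[k] F'') (P : Pts W F) :
    pm W ψ (pm W φ P) = pm W (ψ.comp φ) P := by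
  classical
  exact Affine.Point.map_map (f := φ) (g := ψ) P

theorem pm_id (W : WeierstrassCurve k) {F : Type*} [Field F] [Algebra k F] (P : Pts W F) :
    pm W (AlgHom.id k F) P = P := by
  classical
  exact Affine.Point.map_id P

variable {A : Type*} [Field A] [Algebra k A] (W : WeierstrassCurve k)

/-- The action of the automorphisms of `A` on the points. -/
noncomputable def act : (A ≃ₐ[k] A) →* AddMonoid.End (Pts W A) where
  toFun σ := pm W σ.toAlgHom
  map_one' := by
    ext P
    exact pm_id W P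
  map_mul' σ τ := by
    ext P
    exact (pm_pm W τ.toAlgHom σ.toAlgHom P).symm

variable {W}
variable {kv B : Type*} [Field kv] [Algebra k kv] [Field B] [Algebra kv B] [Algebra k B]
  [IsScalarTower k kv B]

variable (W kv) in
/-- The function `f` on the subgroup `H` becomes a coboundary over `B` at the embedding `ι`. -/
def LocAt (H : Subgroup (A ≃ₐ[k] A)) (ι : A →ₐ[k] B) (f : H → Pts W A) : Prop :=
  ∃ P : Pts W B, ∀ (τ : B ≃ₐ[kv] B) (σ : H), (∀ x, τ (ι x) = ι (σ.1 x)) →
    pm W ι (f σ) = pm W (τ.toAlgHom.restrictScalars k) P - P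

variable {H N : Subgroup (A ≃ₐ[k] A)} {ι : A →ₐ[k] B}

theorem locAt_zero : LocAt W kv H ι 0 :=
  ⟨0, fun τ σ _ => by rw [Pi.zero_apply, map_zero, map_zero, sub_zero]⟩

theorem locAt_add {f g : H → Pts W A} (hf : LocAt W kv H ι f)
    (hg : LocAt W kv H ι g) : LocAt W kv H ι (f + g) := by
  obtain ⟨P, hP⟩ := hf
  obtain ⟨Q, hQ⟩ := hg
  refine ⟨P + Q, fun τ σ h => ?_⟩
  rw [Pi.add_apply, map_add, hP τ σ h, hQ τ σ h, map_add]
  abel

theorem locAt_neg {f : H → Pts W A} (hf : LocAt W kv H ι f) :
    LocAt W kv H ι (-f) := by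
  obtain ⟨P, hP⟩ := hf
  refine ⟨-P, fun τ σ h => ?_⟩
  rw [Pi.neg_apply, map_neg, hP τ σ h, map_neg]
  abel

theorem locAt_res (h : N ≤ H) {f : H → Pts W A}
    (hf : LocAt W kv H ι f) : LocAt W kv N ι (rs h f) := by
  obtain ⟨P, hP⟩ := hf
  exact ⟨P, fun τ σ hh => hP τ (Subgroup.inclusion h σ) hh⟩

theorem locAt_conj [hN : N.Normal] (g : A ≃ₐ[k] A) {f : N → Pts W A}
    (hf : LocAt W kv N (ι.comp g.toAlgHom) f) : LocAt W kv N ι (cj (act W) N g f) := by
  obtain ⟨P, hP⟩ := hf
  refine ⟨P, fun τ σ hh => ?_⟩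
  have h1 := hP τ ⟨g⁻¹ * σ * g, by simpa using hN.conj_mem σ σ.2 g⁻¹⟩ (by
    intro x
    have h2 := hh (g x)
    change τ (ι (g x)) = ι (g (g⁻¹ (σ.1 (g x))))
    rw [h2]
    congr 1
    exact (AlgEquiv.apply_symm_apply g _).symm)
  rw [← h1]
  change pm W ι (pm W g.toAlgHom _) = _
  rw [pm_pm]

/-- The pairs of compatible automorphisms. -/
def DD (kv : Type*) [Field kv] [Algebra k kv] [Algebra kv B] [IsScalarTower k kv B]
    (H : Subgroup (A ≃ₐ[k] A)) (ι : A →ₐ[k] B) : Subgroup ((B ≃ₐ[kv] B) × H) where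
  carrier := {x | ∀ z, x.1 (ι z) = ι (x.2.1 z)}
  mul_mem' := by
    intro x y hx hy z
    change x.1 (y.1 (ι z)) = ι (x.2.1 (y.2.1 z))
    rw [hy z, hx]
  one_mem' := by
    intro z
    rfl
  inv_mem' := by
    intro x hx z
    have h1 := hx (x.2.1⁻¹ z)
    change x.1⁻¹ (ι z) = ι (x.2.1⁻¹ z)
    have h2 : x.2.1 (x.2.1⁻¹ z) = z := AlgEquiv.apply_symm_apply x.2.1 z
    rw [h2] at h1
    rw [← h1]
    exact AlgEquiv.symm_apply_apply x.1 _

theorem locAt_idx (h : N ≤ H) [hN : N.Normal] [hfi : N.FiniteIndex]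
    {f : H → Pts W A} (hf : IsCoc (act W) H f)
    (hl : LocAt W kv N ι (rs h f)) : LocAt W kv H ι ((N.subgroupOf H).index • f) := by
  classical
  obtain ⟨P, hP⟩ := hl
  let π : DD kv H ι →* H := (MonoidHom.snd _ _).comp (DD kv H ι).subtype
  let aB : DD kv H ι →* AddMonoid.End (Pts W B) :=
    { toFun := fun x => pm W (x.1.1.toAlgHom.restrictScalars k)
      map_one' := by
        ext P
        exact pm_id W P
      map_mul' := fun x y => by
        ext P
        exact (pm_pm W (y.1.1.toAlgHom.restrictScalars k) (x.1.1.toAlgHom.restrictScalars k)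
          P).symm }
  let C : Subgroup (DD kv H ι) := (N.subgroupOf H).comap π
  have hdvd : C.index ∣ (N.subgroupOf H).index := by
    have h1 : C.index = (N.subgroupOf H).relIndex π.range := Subgroup.index_comap _ _
    rw [h1]
    exact Subgroup.relIndex_dvd_index_of_normal _ _
  haveI : C.FiniteIndex := ⟨fun h0 => by
    rw [h0, zero_dvd_iff] at hdvd
    exact index_pos hdvd⟩
  obtain ⟨c, hc⟩ := hdvd
  obtain ⟨S, hS⟩ := killed aB C
    (fun x => pm W ι (f (π x)) - (aB x P - P)) (by
      intro x y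
      have h1 : pm W ι (act W ((π x : H) : A ≃ₐ[k] A) (f (π y))) =
          aB x (pm W ι (f (π y))) := by
        change pm W ι (pm W _ _) = pm W _ (pm W ι _)
        rw [pm_pm, pm_pm]
        have h2 : (x.1.1.toAlgHom.restrictScalars k).comp ι =
          ι.comp ((π x : H) : A ≃ₐ[k] A).toAlgHom := AlgHom.ext x.2
        rw [h2]
      change pm W ι (f (π (x * y))) - (aB (x * y) P - P) =
        pm W ι (f (π x)) - (aB x P - P) +
          aB x (pm W ι (f (π y)) - (aB y P - P))
      rw [map_mul π, hf, map_add, h1, map_mul aB, map_sub, map_sub]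
      change _ + _ - (aB x (aB y P) - P) = _
      abel) (by
      intro x hx
      change pm W ι (f (π x)) - (aB x P - P) = 0
      rw [sub_eq_zero]
      exact hP x.1.1 ⟨_, hx⟩ x.2)
  refine ⟨(N.subgroupOf H).index • P - c • S, fun τ σ hh => ?_⟩
  have h1 := hS ⟨(τ, σ), hh⟩
  have h2 : C.index • (pm W ι (f σ) -
      (pm W (τ.toAlgHom.restrictScalars k) P - P)) =
      S - pm W (τ.toAlgHom.restrictScalars k) S := h1
  have h3 : (N.subgroupOf H).index • (pm W ι (f σ) -
      (pm W (τ.toAlgHom.restrictScalars k) P - P)) =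
      c • (S - pm W (τ.toAlgHom.restrictScalars k) S) := by
    rw [← h2, ← mul_smul, hc, mul_comm]
  rw [Pi.smul_apply, map_nsmul, map_sub, map_nsmul, map_nsmul]
  rw [smul_sub, smul_sub, smul_sub, sub_eq_iff_eq_add] at h3
  rw [h3]
  abel

end

end Pool.Agent.U10.Sha
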