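import Pool.Agent.U10.Sha.Sch

/-!
The Tate-Shafarevich data for a family of extensions of the base field.
-/

set_option linter.unusedSectionVars false
set_option linter.style.haveILetI false

namespace Pool.Agent.U10.Sha

open Module IntermediateField

theorem lc_rs' {G M : Type*} [Group G] [TopologicalSpace G] {N H : Subgroup G} (h : N ≤ H)
    {f : H → M} (hf : IsLocallyConstant f) : IsLocallyConstant (rs h f) :=
  hf.comp_continuous (Continuous.subtype_mk continuous_subtype_val _)

theorem lc_cj' {G M : Type*} [Group G] [TopologicalSpace G] [IsTopologicalGroup G]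
    [AddCommGroup M] (a : G →* AddMonoid.End M) (N : Subgroup G) [hN : N.Normal] (g : G)
    {f : N → M} (hf : IsLocallyConstant f) : IsLocallyConstant (cj a N g f) := by
  have h1 : Continuous (fun n : N => (⟨g⁻¹ * n * g, by simpa using hN.conj_mem n n.2 g⁻¹⟩ : N)) :=
    Continuous.subtype_mk ((continuous_const.mul continuous_subtype_val).mul continuous_const) _
  exact (hf.comp_continuous h1).comp (a g)

variable {k : Type} [Field k] {A : Type} [Field A] [Algebra k A] (Φ : PF.Fun k)
  {I : Type*} (kv B : I → Type) [∀ i, Field (kv i)] [∀ i, Algebra k (kv i)] [∀ i, Field (B i)]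
  [∀ i, Algebra (kv i) (B i)] [∀ i, Algebra k (B i)] [∀ i, IsScalarTower k (kv i) (B i)]

/-- The conditions for `Ш`: local triviality at a family of extensions. -/
def famSha : LocData (PF.act Φ (A := A)) where
  P H :=
    { carrier := {f | IsLocallyConstant f ∧ ∀ (i : I) (e : A →ₐ[k] B i),
        PF.LocAt Φ (kv i) H e f}
      add_mem' := fun hf hg => ⟨hf.1.add hg.1, fun i e => PF.locAt_add (hf.2 i e) (hg.2 i e)⟩
      zero_mem' := ⟨IsLocallyConstant.const 0, fun _ _ => PF.locAt_zero⟩
      neg_mem' := fun hf => ⟨hf.1.neg, fun i e => PF.locAt_neg (hf.2 i e)⟩ }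
  res := fun h f hf => ⟨lc_rs' h hf.1, fun i e => PF.locAt_res h (hf.2 i e)⟩
  conj := fun N _ g f hf => ⟨lc_cj' _ N g hf.1, fun i e => PF.locAt_conj g (hf.2 i _)⟩
  idx := fun {N H} h _ _ f hop hf hl => ⟨(lc_idx h hop hf hl.1).comp
      (fun x => (N.subgroupOf H).index • x), fun i e => PF.locAt_idx h hf (hl.2 i e)⟩

/-- The completion of the field `k` for the valuation ring `V`. -/
def Cpl (V : ValuationSubring k) : Type := V.valuation.Completion

noncomputable instance (V : ValuationSubring k) : Field (Cpl V) :=
  (inferInstance : Field V.valuation.Completion)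

noncomputable instance (V : ValuationSubring k) : Algebra k (Cpl V) :=
  ((UniformSpace.Completion.coeRingHom : WithVal V.valuation →+* V.valuation.Completion).comp
    (WithVal.equiv V.valuation).symm.toRingHom).toAlgebra

/-- The separable closure of a field. -/
def Sep (k : Type) [Field k] : Type := SeparableClosure k

noncomputable instance : Field (Sep k) := (inferInstance : Field (SeparableClosure k))

noncomputable instance {K : Type} [Field K] [Algebra k K] : Algebra k (Sep K) :=
  (inferInstance : Algebra k (SeparableClosure K))

instance {K : Type} [Field K] [Algebra k K] : IsScalarTower k K (Sep K) :=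
  (inferInstance : IsScalarTower k K (SeparableClosure K))

instance : IsGalois k (Sep k) := (inferInstance : IsGalois k (SeparableClosure k))

/-- The intermediate fields of the separable closure. -/
abbrev Ext (k : Type) [Field k] : Type := IntermediateField k (Sep k)

/-- The absolute Galois group of the field `L`, with the Krull topology. -/
def GalL (L : Ext k) : Type := L.fixingSubgroup

noncomputable instance (L : Ext k) : Group (GalL L) := (inferInstance : Group L.fixingSubgroup)

noncomputable instance (L : Ext k) : TopologicalSpace (GalL L) :=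
  (inferInstance : TopologicalSpace L.fixingSubgroup)

/-- The action on the points. -/
noncomputable def ptAct (A : GrpSch k) {L : Ext k} (σ : GalL L) :
    GPts A (Sep k) →+ GPts A (Sep k) := gm A σ.1.toAlgHom

/-- The embeddings of the separable closure of `k` in the one of the completion. -/
def LocEmb (V : ValuationSubring k) : Type := Sep k →ₐ[k] Sep (Cpl V)

/-- The absolute Galois group of the completion. -/
def LocAut (V : ValuationSubring k) : Type := Sep (Cpl V) ≃ₐ[Cpl V] Sep (Cpl V)

/-- `τ ι = ι σ`. -/
def Compatible {V : ValuationSubring k} (ι : LocEmb V) (τ : LocAut V) {L : Ext k} (σ : GalL L) :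
    Prop := ∀ x, τ.1 (ι.1 x) = ι.1 (σ.1 x)

/-- The map of points given by the embedding. -/
noncomputable def locPt (A : GrpSch k) {V : ValuationSubring k} (ι : LocEmb V) :
    GPts A (Sep k) →+ GPts A (Sep (Cpl V)) := gm A ι

/-- The action of the Galois group of the completion on the points. -/
noncomputable def locAct (A : GrpSch k) {V : ValuationSubring k} (τ : LocAut V) :
    GPts A (Sep (Cpl V)) →+ GPts A (Sep (Cpl V)) :=
  gm A ((AlgEquiv.toAlgHom (τ : Sep (Cpl V) ≃ₐ[Cpl V] Sep (Cpl V))).restrictScalars k)

/-- The Galois group of `L` over `k` (the group of the automorphisms). -/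
def GalG (L : Ext k) : Type := L ≃ₐ[k] L

noncomputable instance (L : Ext k) : Group (GalG L) := (inferInstance : Group (L ≃ₐ[k] L))

/-- The group of the invertible `c × c` matrices over `ℤ/q`. -/
def Mats (c q : ℕ) : Type := GL (Fin c) (ZMod q)

noncomputable instance (c q : ℕ) : Group (Mats c q) := (inferInstance : Group (GL (Fin c) (ZMod q)))

/-- The data for the nontrivial valuation rings. -/
noncomputable def vSha : LocData (PF.act Φ (A := Sep k)) :=
  famSha Φ (fun V : {V : ValuationSubring k // V ≠ ⊤} => Cpl V.1)
    (fun V : {V : ValuationSubring k // V ≠ ⊤} => Sep (Cpl V.1))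

end Pool.Agent.U10.Sha
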