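import Pool.Agent.U10.Sha.Ell
import Pool.Agent.U10.Sch.Abs

/-!
The coranks as a function of the field: the smallest field of maximal corank.
-/

set_option linter.unusedSectionVars false
set_option linter.style.haveILetI false

namespace Pool.Agent.U10.Sha

open Module IntermediateField

variable {k A : Type*} [Field k] [Field A] [Algebra k A] [IsGalois k A]

theorem fd_of_le {K L : IntermediateField k A} (h : K ≤ L) [FiniteDimensional k L] :
    FiniteDimensional k K :=
  FiniteDimensional.of_injective (IntermediateField.inclusion h).toLinearMap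
    (IntermediateField.inclusion h).injective

theorem fix_inf (K L : IntermediateField k A) [FiniteDimensional k K] :
    (K ⊓ L).fixingSubgroup = K.fixingSubgroup ⊔ L.fixingSubgroup := by
  have hop : IsOpen ((K.fixingSubgroup ⊔ L.fixingSubgroup : Subgroup (A ≃ₐ[k] A)) :
      Set (A ≃ₐ[k] A)) := Subgroup.isOpen_mono le_sup_left K.fixingSubgroup_isOpen
  have hcl := Subgroup.isClosed_of_isOpen _ hop
  have h1 := InfiniteGalois.fixingSubgroup_fixedField (k := k) (K := A)
    ⟨K.fixingSubgroup ⊔ L.fixingSubgroup, hcl⟩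
  have h2 : fixedField (K.fixingSubgroup ⊔ L.fixingSubgroup) = K ⊓ L := by
    apply le_antisymm
    · apply le_inf
      · conv_rhs => rw [← InfiniteGalois.fixedField_fixingSubgroup K]
        exact IntermediateField.fixedField_antitone le_sup_left
      · conv_rhs => rw [← InfiniteGalois.fixedField_fixingSubgroup L]
        exact IntermediateField.fixedField_antitone le_sup_right
    · rw [IntermediateField.le_iff_le]
      exact sup_le (IntermediateField.fixingSubgroup_antitone inf_le_left)
        (IntermediateField.fixingSubgroup_antitone inf_le_right)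
  rw [← h2]
  exact h1

variable {M : Type*} [AddCommGroup M] {a : (A ≃ₐ[k] A) →* AddMonoid.End M}
  (L : LocData a) (p : ℕ) [hp : Fact p.Prime]

/-- The corank over the intermediate field `K`. -/
noncomputable def LocData.crF (K : IntermediateField k A) : Cardinal := L.cr p K.fixingSubgroup

theorem exists_normal (K : IntermediateField k A) [FiniteDimensional k K] :
    ∃ N : Subgroup (A ≃ₐ[k] A), N.Normal ∧ N.FiniteIndex ∧ IsOpen (N : Set (A ≃ₐ[k] A)) ∧
      N ≤ K.fixingSubgroup := by
  haveI : FiniteDimensional k (normalClosure k K A) := inferInstance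
  refine ⟨(normalClosure k K A).fixingSubgroup, ?_, ?_, ?_, ?_⟩
  · haveI : IsGalois k (normalClosure k K A) := inferInstance
    exact (InfiniteGalois.normal_iff_isGalois _).2 inferInstance
  · refine ⟨?_⟩
    rw [← finrank_eq_fixingSubgroup_index]
    exact finrank_pos.ne'
  · exact IntermediateField.fixingSubgroup_isOpen _
  · exact IntermediateField.fixingSubgroup_antitone (IntermediateField.le_normalClosure K)

theorem crF_super (K K' : IntermediateField k A) [FiniteDimensional k K] [FiniteDimensional k K'] :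
    L.crF p K + L.crF p K' ≤ L.crF p (K ⊔ K') + L.crF p (K ⊓ K') := by
  obtain ⟨N, h1, h2, h3, h4⟩ := exists_normal (K ⊔ K')
  unfold LocData.crF
  rw [fix_inf K K', fixingSubgroup_sup]
  rw [fixingSubgroup_sup] at h4
  exact cr_super L p N h3 (h4.trans inf_le_left) (h4.trans inf_le_right)

theorem crF_mono {K K' : IntermediateField k A} [FiniteDimensional k K'] (h : K ≤ K') :
    L.crF p K ≤ L.crF p K' := by
  obtain ⟨N, h1, h2, h3, h4⟩ := exists_normal K'
  exact cr_anti L p N h3 h4 (IntermediateField.fixingSubgroup_antitone h)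

theorem crF_map_le (K : IntermediateField k A) [FiniteDimensional k K] (g : A ≃ₐ[k] A) :
    L.crF p K ≤ L.crF p (K.map g.toAlgHom) := by
  haveI : FiniteDimensional k (K.map g.toAlgHom) := inferInstance
  obtain ⟨N, h1, h2, h3, h4⟩ := exists_normal (K ⊔ K.map g.toAlgHom)
  rw [fixingSubgroup_sup] at h4
  apply cr_conj_le L p N h3 (h4.trans inf_le_left) (h4.trans inf_le_right) g
  intro σ hσ
  rw [IntermediateField.mem_fixingSubgroup_iff] at hσ ⊢
  intro x hx
  have h5 := hσ (g x) ⟨x, hx, rfl⟩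
  change g⁻¹ (σ (g x)) = x
  rw [h5]
  exact AlgEquiv.symm_apply_apply g x

/-- The finite extensions of `k` in `Ω`. -/
abbrev FinIn (Ω : IntermediateField k A) : Type _ :=
  {K : IntermediateField k A // FiniteDimensional k K ∧ K ≤ Ω}

noncomputable instance (Ω : IntermediateField k A) : Lattice (FinIn Ω) :=
  Subtype.lattice (P := fun K : IntermediateField k A => FiniteDimensional k K ∧ K ≤ Ω)
    (fun {K K'} h h' => by
      haveI := h.1
      haveI := h'.1
      exact ⟨inferInstance, sup_le h.2 h'.2⟩)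
    (fun {K K'} h h' => by
      haveI := h.1
      exact ⟨fd_of_le inf_le_left, inf_le_left.trans h.2⟩)

theorem controlling (Ω : IntermediateField k A) (m : ℕ)
    (hm : ∀ K ≤ Ω, FiniteDimensional k K → L.crF p K ≤ m) :
    ∃ K₀ ≤ Ω, FiniteDimensional k K₀ ∧
      (∀ K ≤ Ω, FiniteDimensional k K → L.crF p K = L.crF p (K ⊓ K₀)) ∧
      (∀ K₁ ≤ Ω, FiniteDimensional k K₁ →
        (∀ K ≤ Ω, FiniteDimensional k K → L.crF p K = L.crF p (K ⊓ K₁)) → K₀ ≤ K₁) ∧
      (Normal k Ω → Normal k K₀) := by
  classical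
  have hfin : ∀ K ≤ Ω, FiniteDimensional k K →
      (((L.crF p K).toNat : ℕ) : Cardinal) = L.crF p K := by
    intro K hK hKf
    exact Cardinal.cast_toNat_of_lt_aleph0 ((hm K hK hKf).trans_lt Cardinal.natCast_lt_aleph0)
  haveI : Nonempty (FinIn Ω) := ⟨⟨⊥, inferInstance, bot_le⟩⟩
  obtain ⟨⟨K₀, hf₀, hΩ₀⟩, h1, h2, h3⟩ := Pool.Agent.U10.Sch.exists_least_max (α := FinIn Ω)
    (fun K => ((L.crF p K.1).toNat : ℤ)) (fun K => finrank k K.1)
    (by
      rintro ⟨x, hx⟩ ⟨y, hy⟩ hxy hd
      haveI := hy.1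
      exact Subtype.ext (IntermediateField.eq_of_le_of_finrank_le hxy hd))
    (by
      rintro ⟨x, hx⟩ ⟨y, hy⟩
      haveI := hx.1
      haveI := hy.1
      have h4 := crF_super L p x y
      have hsup : x ⊔ y ≤ Ω := sup_le hx.2 hy.2
      have hinf : x ⊓ y ≤ Ω := inf_le_left.trans hx.2
      haveI : FiniteDimensional k (x ⊓ y : IntermediateField k A) :=
        fd_of_le inf_le_left
      rw [← hfin x hx.2 hx.1, ← hfin y hy.2 hy.1, ← hfin _ hsup inferInstance,
        ← hfin _ hinf inferInstance] at h4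
      exact_mod_cast h4)
    m (by
      rintro ⟨x, hx⟩
      have h4 := hm x hx.2 hx.1
      rw [← hfin x hx.2 hx.1] at h4
      exact_mod_cast h4)
  have hle : ∀ K ≤ Ω, FiniteDimensional k K → (L.crF p K).toNat ≤ (L.crF p K₀).toNat := by
    intro K hK hKf
    exact_mod_cast h1 ⟨K, hKf, hK⟩
  have hmin : ∀ K ≤ Ω, FiniteDimensional k K → (L.crF p K).toNat = (L.crF p K₀).toNat →
      K₀ ≤ K := by
    intro K hK hKf h
    exact h2 ⟨K, hKf, hK⟩ (by exact_mod_cast h)
  refine ⟨K₀, hΩ₀, hf₀, ?_, ?_, ?_⟩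
  · intro K hK hKf
    haveI : FiniteDimensional k (K ⊓ K₀ : IntermediateField k A) :=
      fd_of_le inf_le_left
    apply le_antisymm
    · have h4 := crF_super L p K K₀
      have hsup : K ⊔ K₀ ≤ Ω := sup_le hK hΩ₀
      have hinf : K ⊓ K₀ ≤ Ω := inf_le_left.trans hK
      have h5 := hle _ hsup inferInstance
      rw [← hfin K hK hKf, ← hfin K₀ hΩ₀ hf₀, ← hfin _ hsup inferInstance,
        ← hfin _ hinf inferInstance] at h4
      rw [← hfin K hK hKf, ← hfin _ hinf inferInstance]
      have h6 : (L.crF p K).toNat + (L.crF p K₀).toNat ≤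
          (L.crF p (K ⊔ K₀)).toNat + (L.crF p (K ⊓ K₀)).toNat := by exact_mod_cast h4
      exact_mod_cast (by omega : (L.crF p K).toNat ≤ (L.crF p (K ⊓ K₀)).toNat)
    · exact crF_mono L p inf_le_left
  · intro K₁ hK₁ hK₁f h
    haveI : FiniteDimensional k (K₀ ⊓ K₁ : IntermediateField k A) :=
      fd_of_le inf_le_left
    have h4 := h K₀ hΩ₀ hf₀
    have h5 := hmin (K₀ ⊓ K₁) (inf_le_left.trans hΩ₀) inferInstance (by rw [← h4])
    exact h5.trans inf_le_right
  · intro hn
    rw [IntermediateField.normal_iff_forall_map_le']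
    intro g
    have hmap : K₀.map (g : A ≃ₐ[k] A).toAlgHom ≤ Ω := by
      have h4 := (IntermediateField.normal_iff_forall_map_le'.1 hn) g
      exact (IntermediateField.map_mono _ hΩ₀).trans h4
    have hg := crF_map_le L p K₀ g
    have h5 := hle _ hmap inferInstance
    have h6 : (L.crF p (K₀.map (g : A ≃ₐ[k] A).toAlgHom)).toNat = (L.crF p K₀).toNat := by
      apply le_antisymm h5
      rw [← hfin K₀ hΩ₀ hf₀, ← hfin _ hmap inferInstance] at hg
      exact_mod_cast hg
    have h7 := hmin _ hmap inferInstance h6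
    have h8 : finrank k (K₀.map (g : A ≃ₐ[k] A).toAlgHom) = finrank k K₀ :=
      (IntermediateField.equivMap K₀ (g : A ≃ₐ[k] A).toAlgHom).toLinearEquiv.finrank_eq.symm
    exact (IntermediateField.eq_of_le_of_finrank_le h7 h8.le).ge

/-- `K₁` controls the coranks over all finite extensions of `k` in `Ω`. -/
def LocData.Ctl (Ω K₁ : IntermediateField k A) : Prop :=
  ∀ K ≤ Ω, FiniteDimensional k K → L.crF p K = L.crF p (K ⊓ K₁)

theorem bounded_iff (Ω : IntermediateField k A) :
    (∃ m : ℕ, ∀ K ≤ Ω, FiniteDimensional k K → L.crF p K ≤ m) ↔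
      ∃ K₁ ≤ Ω, FiniteDimensional k K₁ ∧ L.crF p K₁ < Cardinal.aleph0 ∧ L.Ctl p Ω K₁ := by
  constructor
  · rintro ⟨m, hm⟩
    obtain ⟨K₀, h1, h2, h3, -⟩ := controlling L p Ω m hm
    exact ⟨K₀, h1, h2, (hm K₀ h1 h2).trans_lt Cardinal.natCast_lt_aleph0, h3⟩
  · rintro ⟨K₁, h1, h2, h3, h4⟩
    refine ⟨(L.crF p K₁).toNat, fun K hK hKf => ?_⟩
    rw [Cardinal.cast_toNat_of_lt_aleph0 h3, h4 K hK hKf]
    exact crF_mono L p inf_le_right

theorem coprime_zero {Ω K₀ : IntermediateField k A} (hf : FiniteDimensional k K₀)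
    (hc : L.Ctl p Ω K₀) (h0 : L.crF p ⊥ = 0) (K : IntermediateField k A) (hK : K ≤ Ω)
    (hKf : FiniteDimensional k K) (hcop : Nat.Coprime (finrank k K) (finrank k K₀)) :
    L.crF p K = 0 := by
  rw [hc K hK hKf]
  have h1 : K ⊓ K₀ = ⊥ := by
    have h2 : finrank k (K ⊓ K₀ : IntermediateField k A) ∣ finrank k K :=
      IntermediateField.finrank_dvd_of_le_right inf_le_left
    have h3 : finrank k (K ⊓ K₀ : IntermediateField k A) ∣ finrank k K₀ :=
      IntermediateField.finrank_dvd_of_le_right inf_le_right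
    have h4 := Nat.dvd_gcd h2 h3
    rw [hcop] at h4
    exact IntermediateField.finrank_eq_one_iff.1 (Nat.dvd_one.1 h4)
  rw [h1, h0]

end Pool.Agent.U10.Sha
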