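import Pool.Agent.U10.Shr.Gal
import Pool.Agent.U10.Sha.Fld

/-!
The Galois group of the smallest controlling field is a group of matrices over a finite ring: Tate
modules.
-/

set_option linter.unusedSectionVars false
set_option linter.style.haveILetI false

namespace Pool.Agent.U10.Sha

open Module IntermediateField Pool.Agent.N171
open Pool.Agent.U10.Shr (embed ex degree_dvd ex_neZero)

section gen

variable {G M : Type*} [Group G] [TopologicalSpace G] [AddCommGroup M] {a : G →* AddMonoid.End M}
  (L : LocData a) (p : ℕ) [hp : Fact p.Prime]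

theorem cj'_self (N : Subgroup G) [hN : N.Normal] (g : G) (hg : g ∈ N) (x : L.Sh N) :
    L.cj' N g x = x := by
  have h1 := cj_res L (le_refl N) g hg x
  have h2 : ∀ y : L.Sh N, L.res' (le_refl N) y = y := by
    intro y
    induction y using QuotientAddGroup.induction_on with
    | H f => rfl
  rwa [h2] at h1

/-- The action on the Tate module of the classes. -/
noncomputable def LocData.rep (N : Subgroup G) [hN : N.Normal] :
    G →* Module.End ℤ_[p] (L.T p N) where
  toFun g := tmMap (L.cj' N g)
  map_one' := LinearMap.ext (fun x => tm_ext (fun n => cj'_one L N _))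
  map_mul' g h := LinearMap.ext (fun x => tm_ext (fun n => cj'_mul L N g h _))

theorem rep_self (N : Subgroup G) [hN : N.Normal] (g : G) (hg : g ∈ N) : L.rep p N g = 1 :=
  LinearMap.ext (fun x => tm_ext (fun n => cj'_self L N g hg _))

theorem inv_eq_ker (N : Subgroup G) [hN : N.Normal] (g : G) :
    L.inv p N (N ⊔ Subgroup.zpowers g) = LinearMap.ker (L.rep p N g - 1) := by
  apply le_antisymm
  · intro x hx
    rw [LinearMap.mem_ker, LinearMap.sub_apply, sub_eq_zero]
    exact hx g (Subgroup.mem_sup_right (Subgroup.mem_zpowers g))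
  · intro x hx
    rw [LinearMap.mem_ker, LinearMap.sub_apply, sub_eq_zero] at hx
    have hx' : L.rep p N g x = x := hx
    let S : Subgroup G :=
      { carrier := {g | L.rep p N g x = x}
        mul_mem' := by
          intro g h hg hh
          change L.rep p N (g * h) x = x
          rw [map_mul]
          change L.rep p N g (L.rep p N h x) = x
          rw [hh, hg]
        one_mem' := by
          change L.rep p N 1 x = x
          rw [map_one]
          rfl
        inv_mem' := by
          intro g hg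
          change L.rep p N g⁻¹ x = x
          have h1 : L.rep p N g⁻¹ (L.rep p N g x) = x := by
            change (L.rep p N g⁻¹ * L.rep p N g) x = x
            rw [← map_mul, inv_mul_cancel, map_one]
            rfl
          rw [hg] at h1
          exact h1 }
    have h1 : N ⊔ Subgroup.zpowers g ≤ S :=
      sup_le (fun h hh => by
        change L.rep p N h x = x
        rw [rep_self L p N h hh]
        rfl) ((Subgroup.zpowers_le (g := g)).2 hx')
    exact fun h hh => h1 hh

end gen

section field

variable {k A : Type*} [Field k] [Field A] [Algebra k A] [IsGalois k A]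
  {M : Type*} [AddCommGroup M] {a : (A ≃ₐ[k] A) →* AddMonoid.End M}
  (L : LocData a) (p : ℕ) [hp : Fact p.Prime]

theorem fix_open (H : Subgroup (A ≃ₐ[k] A)) (hop : IsOpen (H : Set (A ≃ₐ[k] A))) :
    (fixedField H).fixingSubgroup = H :=
  InfiniteGalois.fixingSubgroup_fixedField (k := k) (K := A) ⟨H, Subgroup.isClosed_of_isOpen _ hop⟩

theorem gal_embed {Ω K₀ : IntermediateField k A} (h0 : K₀ ≤ Ω) [FiniteDimensional k K₀]
    [Normal k K₀] (hfin : L.crF p K₀ < Cardinal.aleph0) (hc : L.Ctl p Ω K₀)
    (hmin : ∀ K₁ ≤ Ω, FiniteDimensional k K₁ → L.Ctl p Ω K₁ → K₀ ≤ K₁) :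
    ∃ φ : (K₀ ≃ₐ[k] K₀) →* GL (Fin (L.crF p K₀).toNat) (ZMod (p ^ ex p)),
      Function.Injective φ := by
  haveI : IsGalois k K₀ := IsGalois.mk
  haveI hN : K₀.fixingSubgroup.Normal := (InfiniteGalois.normal_iff_isGalois _).2 inferInstance
  haveI hfi : K₀.fixingSubgroup.FiniteIndex := by
    refine ⟨?_⟩
    rw [← finrank_eq_fixingSubgroup_index]
    exact finrank_pos.ne'
  have hop : IsOpen (K₀.fixingSubgroup : Set (A ≃ₐ[k] A)) :=
    IntermediateField.fixingSubgroup_isOpen _
  obtain ⟨φ, hφ⟩ := embed (p := p) K₀.fixingSubgroup (L.rep p K₀.fixingSubgroup)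
    (fun g hg => rep_self L p _ g hg) (L.crF p K₀).toNat
    (Cardinal.cast_toNat_of_lt_aleph0 hfin).symm (by
      intro g hg h1
      rw [← inv_eq_ker, Cardinal.cast_toNat_of_lt_aleph0 hfin] at h1
      set H := K₀.fixingSubgroup ⊔ Subgroup.zpowers g with hH
      have hopH : IsOpen (H : Set (A ≃ₐ[k] A)) := Subgroup.isOpen_mono le_sup_left hop
      rw [← cr_eq L p (le_sup_left : K₀.fixingSubgroup ≤ H) hop] at h1
      have h2 : (fixedField H).fixingSubgroup = H := fix_open H hopH
      have h3 : fixedField H ≤ K₀ := by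
        conv_rhs => rw [← InfiniteGalois.fixedField_fixingSubgroup K₀]
        exact IntermediateField.fixedField_antitone le_sup_left
      haveI : FiniteDimensional k (fixedField H) := fd_of_le h3
      have h4 : L.crF p (fixedField H) = L.crF p K₀ := by
        unfold LocData.crF at h1 ⊢
        rw [h2]
        exact h1
      have h5 : L.Ctl p Ω (fixedField H) := by
        intro K hK hKf
        rw [hc K hK hKf]
        haveI : FiniteDimensional k (K ⊓ K₀ : IntermediateField k A) := fd_of_le inf_le_left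
        apply le_antisymm
        · have h6 := crF_super L p (K ⊓ K₀) (fixedField H)
          have h7 : L.crF p ((K ⊓ K₀) ⊔ fixedField H) ≤ L.crF p K₀ :=
            crF_mono L p (sup_le inf_le_right h3)
          have h8 : (K ⊓ K₀) ⊓ fixedField H = K ⊓ fixedField H := by
            rw [inf_assoc, inf_eq_right.2 h3]
          rw [h4, h8] at h6
          have h9 := h6.trans (add_le_add_left h7 _)
          exact (Cardinal.add_le_add_iff_of_lt_aleph0 hfin).1 (h9.trans (add_comm _ _).le)
        · exact crF_mono L p (inf_le_inf_left K h3)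
      have h6 := hmin _ (h3.trans h0) inferInstance h5
      have h7 := IntermediateField.fixingSubgroup_antitone h6
      rw [h2] at h7
      exact hg (h7 (Subgroup.mem_sup_right (Subgroup.mem_zpowers g))))
  have hker : (AlgEquiv.restrictNormalHom K₀ : (A ≃ₐ[k] A) →* (K₀ ≃ₐ[k] K₀)).ker =
      K₀.fixingSubgroup := IntermediateField.restrictNormalHom_ker K₀
  have hsur : Function.Surjective
      (AlgEquiv.restrictNormalHom K₀ : (A ≃ₐ[k] A) →* (K₀ ≃ₐ[k] K₀)) :=
    AlgEquiv.restrictNormalHom_surjective A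
  refine ⟨MonoidHom.liftOfSurjective _ hsur ⟨φ, by rw [hker, hφ]⟩, ?_⟩
  rw [injective_iff_map_eq_one]
  intro y hy
  obtain ⟨g, rfl⟩ := hsur y
  have h1 : MonoidHom.liftOfSurjective _ hsur ⟨φ, by rw [hker, hφ]⟩
    (AlgEquiv.restrictNormalHom K₀ g) = φ g :=
    MonoidHom.liftOfRightInverse_comp_apply _ _ _ _ g
  rw [h1] at hy
  have h2 : g ∈ φ.ker := hy
  rw [hφ, ← hker] at h2
  exact h2

theorem coprime_bot {Ω K₀ : IntermediateField k A} (hf : FiniteDimensional k K₀)
    (hc : L.Ctl p Ω K₀) (K : IntermediateField k A) (hK : K ≤ Ω)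
    (hKf : FiniteDimensional k K) (hcop : Nat.Coprime (finrank k K) (finrank k K₀)) :
    L.crF p K = L.crF p ⊥ := by
  rw [hc K hK hKf]
  have h1 : K ⊓ K₀ = ⊥ := by
    have h2 : finrank k (K ⊓ K₀ : IntermediateField k A) ∣ finrank k K :=
      IntermediateField.finrank_dvd_of_le_right inf_le_left
    have h3 : finrank k (K ⊓ K₀ : IntermediateField k A) ∣ finrank k K₀ :=
      IntermediateField.finrank_dvd_of_le_right inf_le_right
    have h4 := Nat.dvd_gcd h2 h3
    rw [hcop] at h4
    exact IntermediateField.finrank_eq_one_iff.1 (Nat.dvd_one.1 h4)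
  rw [h1]

/-- The smallest controlling field with its Galois group. -/
theorem smallest (Ω : IntermediateField k A) (m : ℕ)
    (hm : ∀ K ≤ Ω, FiniteDimensional k K → L.crF p K ≤ m) :
    ∃ K₀ ≤ Ω, FiniteDimensional k K₀ ∧ L.Ctl p Ω K₀ ∧
      (∀ K₁ ≤ Ω, FiniteDimensional k K₁ → L.Ctl p Ω K₁ → K₀ ≤ K₁) ∧
      (∀ K ≤ Ω, FiniteDimensional k K → Nat.Coprime (finrank k K) (finrank k K₀) →
        L.crF p K = L.crF p ⊥) ∧
      (IsGalois k Ω → IsGalois k K₀ ∧
        finrank k K₀ ∣ Nat.card (GL (Fin (L.crF p K₀).toNat) (ZMod (p ^ ex p))) ∧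
        ∃ φ : (K₀ ≃ₐ[k] K₀) →* GL (Fin (L.crF p K₀).toNat) (ZMod (p ^ ex p)),
          Function.Injective φ) := by
  obtain ⟨K₀, h1, h2, h3, h4, h5⟩ := controlling L p Ω m hm
  refine ⟨K₀, h1, h2, h3, h4, fun K hK hKf hc => coprime_bot L p h2 h3 K hK hKf hc, fun hg => ?_⟩
  haveI : Normal k K₀ := h5 inferInstance
  haveI : IsGalois k K₀ := IsGalois.mk
  obtain ⟨φ, hφ⟩ := gal_embed L p h1 ((hm K₀ h1 h2).trans_lt Cardinal.natCast_lt_aleph0) h3 h4
  exact ⟨inferInstance, degree_dvd φ hφ, φ, hφ⟩

end field

end Pool.Agent.U10.Sha
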