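import Pool.Agent.N171.Tt

/-!
Cocycles on the subgroups of a group with a local condition: restriction, conjugation and
corestriction.
-/

set_option linter.unusedSectionVars false
set_option linter.style.haveILetI false

namespace Pool.Agent.U10.Sha

open Pool.Agent.N171

/-- A cocycle which vanishes on a subgroup of finite index is, up to the index, a coboundary. -/
theorem killed {D A : Type*} [Group D] [AddCommGroup A] (a : D →* AddMonoid.End A)
    (C : Subgroup D) [C.FiniteIndex] (f : D → A) (hf : ∀ d e, f (d * e) = f d + a d (f e))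
    (h0 : ∀ c ∈ C, f c = 0) : ∃ S : A, ∀ d, C.index • f d = S - a d S := by
  classical
  have h1 : ∀ d, ∀ c ∈ C, f (d * c) = f d := by
    intro d c hc
    rw [hf, h0 c hc, map_zero, add_zero]
  haveI : Fintype (D ⧸ C) := Fintype.ofFinite _
  let F : D ⧸ C → A := Quotient.lift f (by
    intro x y hxy
    have h2 : x⁻¹ * y ∈ C := QuotientGroup.leftRel_apply.1 hxy
    have h3 := h1 x _ h2
    rw [mul_inv_cancel_left] at h3
    exact h3.symm)
  have hF : ∀ d : D, F (d : D ⧸ C) = f d := fun d => rfl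
  refine ⟨∑ q : D ⧸ C, F q, fun d => ?_⟩
  have h2 : ∑ q : D ⧸ C, F q = ∑ q : D ⧸ C, F (d • q) :=
    (Equiv.sum_comp (MulAction.toPerm d : Equiv.Perm (D ⧸ C)) F).symm
  have h3 : ∀ q : D ⧸ C, F (d • q) = f d + a d (F q) := by
    intro q
    induction q using QuotientGroup.induction_on with
    | H z =>
      rw [hF]
      change F ((d * z : D) : D ⧸ C) = _
      rw [hF, hf]
  have h4 : ∑ q : D ⧸ C, F (d • q) = C.index • f d + a d (∑ q : D ⧸ C, F q) := by
    rw [Finset.sum_congr rfl (fun q _ => h3 q), Finset.sum_add_distrib, Finset.sum_const,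
      Finset.card_univ, map_sum, Subgroup.index, Nat.card_eq_fintype_card]
  rw [eq_sub_iff_add_eq, ← h4, ← h2]

variable {G M : Type*} [Group G] [TopologicalSpace G] [AddCommGroup M] (a : G →* AddMonoid.End M)

/-- Cocycles on a subgroup. -/
def IsCoc (H : Subgroup G) (f : H → M) : Prop := ∀ σ τ : H, f (σ * τ) = f σ + a σ (f τ)

/-- The restriction to a smaller subgroup. -/
def rs {N H : Subgroup G} (h : N ≤ H) (f : H → M) : N → M := fun n => f (Subgroup.inclusion h n)

/-- The conjugate of a function on a normal subgroup. -/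
def cj (N : Subgroup G) [hN : N.Normal] (g : G) (f : N → M) : N → M :=
  fun n => a g (f ⟨g⁻¹ * n * g, by simpa using hN.conj_mem n n.2 g⁻¹⟩)

/-- The local conditions. -/
structure LocData where
  /-- the functions satisfying the conditions -/
  P : (H : Subgroup G) → AddSubgroup (H → M)
  res : ∀ {N H : Subgroup G} (h : N ≤ H) (f : H → M), f ∈ P H → rs h f ∈ P N
  conj : ∀ (N : Subgroup G) [N.Normal] (g : G) (f : N → M), f ∈ P N → cj a N g f ∈ P N
  idx : ∀ {N H : Subgroup G} (h : N ≤ H) [N.Normal] [N.FiniteIndex] (f : H → M),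
    IsOpen (N : Set G) → IsCoc a H f → rs h f ∈ P N → (N.subgroupOf H).index • f ∈ P H

variable {a} (L : LocData a)

/-- The cocycles with the local conditions. -/
def LocData.Z (H : Subgroup G) : AddSubgroup (H → M) where
  carrier := {f | IsCoc a H f ∧ f ∈ L.P H}
  add_mem' := by
    rintro f g ⟨hf, hf'⟩ ⟨hg, hg'⟩
    refine ⟨fun σ τ => ?_, add_mem hf' hg'⟩
    simp only [Pi.add_apply, hf σ τ, hg σ τ, map_add]
    abel
  zero_mem' := ⟨fun σ τ => by simp, zero_mem _⟩
  neg_mem' := by
    rintro f ⟨hf, hf'⟩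
    refine ⟨fun σ τ => ?_, neg_mem hf'⟩
    simp only [Pi.neg_apply, hf σ τ, map_neg]
    abel

variable (a) in
/-- The coboundaries. -/
def Bd (H : Subgroup G) : AddSubgroup (H → M) where
  carrier := {f | ∃ x : M, ∀ σ : H, f σ = a σ x - x}
  add_mem' := by
    rintro f g ⟨x, hx⟩ ⟨y, hy⟩
    refine ⟨x + y, fun σ => ?_⟩
    simp only [Pi.add_apply, hx σ, hy σ, map_add]
    abel
  zero_mem' := ⟨0, fun σ => by simp⟩
  neg_mem' := by
    rintro f ⟨x, hx⟩
    refine ⟨-x, fun σ => ?_⟩
    simp only [Pi.neg_apply, hx σ, map_neg]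
    abel

/-- The group of the classes of the cocycles with the local conditions. -/
abbrev LocData.Sh (H : Subgroup G) : Type _ := L.Z H ⧸ (Bd a H).addSubgroupOf (L.Z H)

/-- The restriction of classes. -/
def LocData.res' {N H : Subgroup G} (h : N ≤ H) : L.Sh H →+ L.Sh N :=
  QuotientAddGroup.map _ _
    { toFun := fun f => (⟨rs h f.1, fun σ τ => f.2.1 (Subgroup.inclusion h σ)
        (Subgroup.inclusion h τ), L.res h f.1 f.2.2⟩ : L.Z N)
      map_zero' := rfl
      map_add' := fun _ _ => rfl }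
    (by
      rintro ⟨f, hf⟩ ⟨x, hx⟩
      exact ⟨x, fun σ => hx (Subgroup.inclusion h σ)⟩)

theorem a_mul (a : G →* AddMonoid.End M) (g h : G) (m : M) : a (g * h) m = a g (a h m) := by
  rw [map_mul]
  rfl

theorem a_eq (a : G →* AddMonoid.End M) {g h : G} {g' h' : G} (e : g * h = g' * h') (m : M) :
    a g (a h m) = a g' (a h' m) := by
  rw [← a_mul, ← a_mul, e]

theorem cj_coc (N : Subgroup G) [hN : N.Normal] (g : G) {f : N → M} (hf : IsCoc a N f) :
    IsCoc a N (cj a N g f) := by
  intro σ τ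
  unfold cj
  have h2 : (⟨g⁻¹ * ((σ * τ : N) : G) * g, by
      simpa using hN.conj_mem _ (σ * τ).2 g⁻¹⟩ : N) =
      (⟨g⁻¹ * σ * g, by simpa using hN.conj_mem σ σ.2 g⁻¹⟩ : N) *
      (⟨g⁻¹ * τ * g, by simpa using hN.conj_mem τ τ.2 g⁻¹⟩ : N) := by
    apply Subtype.ext
    simp [mul_assoc]
  rw [h2, hf, map_add]
  congr 1
  exact a_eq a (by simp [mul_assoc]) _

/-- The action of the group on the classes for a normal subgroup. -/
def LocData.cj' (N : Subgroup G) [hN : N.Normal] (g : G) : L.Sh N →+ L.Sh N :=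
  QuotientAddGroup.map _ _
    { toFun := fun f => (⟨cj a N g f.1, cj_coc N g f.2.1, L.conj N g f.1 f.2.2⟩ : L.Z N)
      map_zero' := by
        apply Subtype.ext
        funext n
        exact map_zero _
      map_add' := fun f g => by
        apply Subtype.ext
        funext n
        exact map_add _ _ _ }
    (by
      rintro ⟨f, hf⟩ ⟨x, hx⟩
      have hx' : ∀ σ : N, f σ = a σ x - x := hx
      refine ⟨a g x, fun σ => ?_⟩
      change a g (f _) = _
      rw [hx', map_sub]
      congr 1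
      exact a_eq a (by simp [mul_assoc]) _)

/-! ### corestriction -/

section cor

variable {N H : Subgroup G} (hNH : N ≤ H) [hN : N.Normal]

/-- The representatives of the cosets. -/
noncomputable def rp (q : H ⧸ N.subgroupOf H) : H := q.out

theorem rp_coe (q : H ⧸ N.subgroupOf H) : ((rp q : H) : H ⧸ N.subgroupOf H) = q := q.out_eq

/-- The element `(s q)⁻¹ h s(h⁻¹ q)`. -/
noncomputable def el (h : H) (q : H ⧸ N.subgroupOf H) : N :=
  ⟨((rp q)⁻¹ * h * rp (h⁻¹ • q) : H), by
    have h1 : ((rp (h⁻¹ • q) : H) : H ⧸ N.subgroupOf H) = ((h⁻¹ * rp q : H) : H ⧸ N.subgroupOf H) := by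
      rw [rp_coe]
      change h⁻¹ • q = h⁻¹ • ((rp q : H) : H ⧸ N.subgroupOf H)
      rw [rp_coe]
    have h2 := QuotientGroup.eq.1 h1.symm
    rw [mul_inv_rev, inv_inv] at h2
    exact h2⟩

theorem el_mul (h h' : H) (q : H ⧸ N.subgroupOf H) :
    el (h * h') q = el h q * el h' (h⁻¹ • q) := by
  apply Subtype.ext
  have h1 : (h * h')⁻¹ • q = h'⁻¹ • h⁻¹ • q := by
    rw [mul_inv_rev, mul_smul]
  simp only [el, h1, Subgroup.coe_mul, Subgroup.coe_inv]
  group

variable [Fintype (H ⧸ N.subgroupOf H)]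

variable (a) in
/-- The corestriction of a function. -/
noncomputable def co (f : N → M) : H → M :=
  fun h => ∑ q : H ⧸ N.subgroupOf H, a (rp q : H) (f (el h q))

theorem co_coc {f : N → M} (hf : IsCoc a N f) : IsCoc a H (co a (H := H) f) := by
  intro h h'
  unfold co
  have h1 : ∀ q : H ⧸ N.subgroupOf H, a (rp q : H) (f (el (h * h') q)) =
      a (rp q : H) (f (el h q)) + a (h : G) (a (rp (h⁻¹ • q) : H) (f (el h' (h⁻¹ • q)))) := by
    intro q
    rw [el_mul, hf, map_add]
    congr 1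
    apply a_eq
    simp only [el, Subgroup.coe_mul, Subgroup.coe_inv]
    group
  rw [Finset.sum_congr rfl (fun q _ => h1 q), Finset.sum_add_distrib, map_sum]
  congr 1
  exact Equiv.sum_comp (MulAction.toPerm h⁻¹ : Equiv.Perm (H ⧸ N.subgroupOf H))
    (fun q => a (h : G) (a (rp q : H) (f (el h' q))))

include hNH in
theorem el_incl (n : N) (q : H ⧸ N.subgroupOf H) :
    el (Subgroup.inclusion hNH n) q = ⟨((rp q : H) : G)⁻¹ * n * ((rp q : H) : G), by
      simpa using hN.conj_mem n n.2 ((rp q : H) : G)⁻¹⟩ := by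
  apply Subtype.ext
  have h1 : (Subgroup.inclusion hNH n)⁻¹ • q = q := by
    conv_lhs => rw [← rp_coe q]
    conv_rhs => rw [← rp_coe q]
    change (((Subgroup.inclusion hNH n)⁻¹ * rp q : H) : H ⧸ N.subgroupOf H) = _
    rw [QuotientGroup.eq]
    rw [Subgroup.mem_subgroupOf]
    simpa [mul_assoc] using hN.conj_mem n n.2 ((rp q : H) : G)⁻¹
  simp only [el, h1, Subgroup.coe_mul, Subgroup.coe_inv, Subgroup.coe_inclusion]

theorem rs_co (f : N → M) : rs hNH (co a (H := H) f) =
    ∑ q : H ⧸ N.subgroupOf H, cj a N ((rp q : H) : G) f := by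
  funext n
  unfold rs co cj
  rw [Finset.sum_apply]
  refine Finset.sum_congr rfl (fun q _ => ?_)
  rw [el_incl]

theorem co_bd {f : N → M} (x : M) (hx : ∀ n : N, f n = a n x - x) (h : H) :
    co a (H := H) f h = a h (∑ q : H ⧸ N.subgroupOf H, a (rp q : H) x) -
      ∑ q : H ⧸ N.subgroupOf H, a (rp q : H) x := by
  unfold co
  have h1 : ∀ q : H ⧸ N.subgroupOf H, a (rp q : H) (f (el h q)) =
      a (h : G) (a (rp (h⁻¹ • q) : H) x) - a (rp q : H) x := by
    intro q
    rw [hx, map_sub]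
    congr 1
    apply a_eq
    simp only [el, Subgroup.coe_mul, Subgroup.coe_inv]
    group
  rw [Finset.sum_congr rfl (fun q _ => h1 q), Finset.sum_sub_distrib, map_sum]
  congr 1
  exact Equiv.sum_comp (MulAction.toPerm h⁻¹ : Equiv.Perm (H ⧸ N.subgroupOf H))
    (fun q => a (h : G) (a (rp q : H) x))

theorem co_add (f g : N → M) : co a (H := H) (f + g) = co a (H := H) f + co a (H := H) g := by
  funext h
  simp only [co, Pi.add_apply, map_add, Finset.sum_add_distrib]

theorem co_zero : co a (H := H) (0 : N → M) = 0 := by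
  funext h
  simp [co]

end cor

theorem co_mem {N H : Subgroup G} (h : N ≤ H) [hN : N.Normal] [hf : N.FiniteIndex]
    [Fintype (H ⧸ N.subgroupOf H)] (hop : IsOpen (N : Set G)) {f : N → M} (hf : f ∈ L.Z N) :
    (N.subgroupOf H).index • co a (H := H) f ∈ L.Z H := by
  have h1 : IsCoc a H (co a (H := H) f) := co_coc hf.1
  refine ⟨?_, ?_⟩
  · intro σ τ
    simp only [Pi.smul_apply, h1 σ τ, smul_add, map_nsmul]
  · apply L.idx h _ hop h1
    rw [rs_co h]
    exact sum_mem (fun q _ => L.conj N _ f hf.2)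

/-- The corestriction of classes, multiplied by the index. -/
noncomputable def LocData.co' {N H : Subgroup G} (h : N ≤ H) [hN : N.Normal] [hf : N.FiniteIndex]
    [Fintype (H ⧸ N.subgroupOf H)] (hop : IsOpen (N : Set G)) : L.Sh N →+ L.Sh H :=
  QuotientAddGroup.map _ _
    { toFun := fun f => (⟨(N.subgroupOf H).index • co a (H := H) f.1, co_mem L h hop f.2⟩ : L.Z H)
      map_zero' := by
        apply Subtype.ext
        change (N.subgroupOf H).index • co a (H := H) (0 : N → M) = 0
        rw [co_zero, smul_zero]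
      map_add' := fun f g => by
        apply Subtype.ext
        change (N.subgroupOf H).index • co a (H := H) (f.1 + g.1) = _
        rw [co_add, smul_add]
        rfl }
    (by
      rintro ⟨f, hf⟩ ⟨x, hx⟩
      have hx' : ∀ σ : N, f σ = a σ x - x := hx
      refine ⟨(N.subgroupOf H).index • ∑ q : H ⧸ N.subgroupOf H, a (rp q : H) x, fun σ => ?_⟩
      change (N.subgroupOf H).index • co a (H := H) f σ = _
      rw [co_bd x hx', smul_sub, map_nsmul])

theorem res_co {N H : Subgroup G} (h : N ≤ H) [hN : N.Normal] [hf : N.FiniteIndex]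
    [Fintype (H ⧸ N.subgroupOf H)] (hop : IsOpen (N : Set G)) (x : L.Sh N) :
    L.res' h (L.co' h hop x) = (N.subgroupOf H).index • ∑ q : H ⧸ N.subgroupOf H,
      L.cj' N ((rp q : H) : G) x := by
  induction x using QuotientAddGroup.induction_on with
  | H f =>
    have h1 : ∀ q : H ⧸ N.subgroupOf H, L.cj' N ((rp q : H) : G) (f : L.Sh N) =
        ((⟨cj a N ((rp q : H) : G) f.1, cj_coc N _ f.2.1, L.conj N _ f.1 f.2.2⟩ : L.Z N) :
          L.Sh N) := fun q => rfl
    rw [Finset.sum_congr rfl (fun q _ => h1 q)]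
    have h2 : (∑ q : H ⧸ N.subgroupOf H,
        ((⟨cj a N ((rp q : H) : G) f.1, cj_coc N _ f.2.1, L.conj N _ f.1 f.2.2⟩ : L.Z N) :
          L.Sh N)) = ((∑ q : H ⧸ N.subgroupOf H,
        (⟨cj a N ((rp q : H) : G) f.1, cj_coc N _ f.2.1, L.conj N _ f.1 f.2.2⟩ : L.Z N) : L.Z N) :
          L.Sh N) :=
      (map_sum (QuotientAddGroup.mk' ((Bd a N).addSubgroupOf (L.Z N))) _ _).symm
    rw [h2]
    have h3 : ∀ (k : ℕ) (y : L.Z N), k • (y : L.Sh N) = ((k • y : L.Z N) : L.Sh N) :=
      fun k y => (map_nsmul (QuotientAddGroup.mk' ((Bd a N).addSubgroupOf (L.Z N))) k y).symm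
    rw [h3]
    have h4 : L.res' h (L.co' h hop (f : L.Sh N)) =
        ((⟨rs h ((N.subgroupOf H).index • co a (H := H) f.1),
          fun σ τ => (co_mem L h hop f.2).1 (Subgroup.inclusion h σ) (Subgroup.inclusion h τ),
          L.res h _ (co_mem L h hop f.2).2⟩ : L.Z N) : L.Sh N) := rfl
    rw [h4]
    congr 1
    apply Subtype.ext
    change rs h ((N.subgroupOf H).index • co a (H := H) f.1) = _
    have h5 : rs h ((N.subgroupOf H).index • co a (H := H) f.1) =
        (N.subgroupOf H).index • rs h (co a (H := H) f.1) := rfl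
    rw [h5, rs_co h]
    push_cast
    rfl

theorem cj_res {N H : Subgroup G} (h : N ≤ H) [hN : N.Normal] (g : G) (hg : g ∈ H) (x : L.Sh H) :
    L.cj' N g (L.res' h x) = L.res' h x := by
  induction x using QuotientAddGroup.induction_on with
  | H f =>
    obtain ⟨f, hf⟩ := f
    symm
    apply QuotientAddGroup.eq.2
    refine ⟨f ⟨g, hg⟩, fun σ => ?_⟩
    change -(f (Subgroup.inclusion h σ)) + a g (f (Subgroup.inclusion h
      ⟨g⁻¹ * σ * g, by simpa using hN.conj_mem σ σ.2 g⁻¹⟩)) = _
    have h1 := hf.1 ⟨g, hg⟩ (Subgroup.inclusion h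
      ⟨g⁻¹ * σ * g, by simpa using hN.conj_mem σ σ.2 g⁻¹⟩)
    have h2 := hf.1 (Subgroup.inclusion h σ) ⟨g, hg⟩
    have h3 : (⟨g, hg⟩ : H) * Subgroup.inclusion h
      ⟨g⁻¹ * σ * g, by simpa using hN.conj_mem σ σ.2 g⁻¹⟩ = Subgroup.inclusion h σ * ⟨g, hg⟩ := by
      apply Subtype.ext
      simp [mul_assoc]
    rw [h3, h2] at h1
    have h4 : a g (f (Subgroup.inclusion h
      ⟨g⁻¹ * σ * g, by simpa using hN.conj_mem σ σ.2 g⁻¹⟩)) =
      f (Subgroup.inclusion h σ) + a σ (f ⟨g, hg⟩) - f ⟨g, hg⟩ := by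
      rw [eq_sub_iff_add_eq, add_comm]
      exact h1.symm
    rw [h4]
    abel

theorem res_killed {N H : Subgroup G} (h : N ≤ H) [hf : N.FiniteIndex] (x : L.Sh H)
    (hx : L.res' h x = 0) : (N.subgroupOf H).index • x = 0 := by
  induction x using QuotientAddGroup.induction_on with
  | H f =>
    obtain ⟨f, hf⟩ := f
    have h1 : L.res' h ((⟨f, hf⟩ : L.Z H) : L.Sh H) =
      ((⟨rs h f, fun σ τ => hf.1 (Subgroup.inclusion h σ) (Subgroup.inclusion h τ),
          L.res h _ hf.2⟩ : L.Z N) : L.Sh N) := rfl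
    rw [h1, QuotientAddGroup.eq_zero_iff] at hx
    obtain ⟨m, hm⟩ := hx
    have hm' : ∀ n : N, f (Subgroup.inclusion h n) = a n m - m := hm
    obtain ⟨S, hS⟩ := killed (D := H) (A := M) (a.comp H.subtype) (N.subgroupOf H)
      (fun σ => f σ - (a σ m - m)) (by
        intro d e
        change f (d * e) - (a (d * e : H) m - m) = f d - (a d m - m) + a d (f e - (a e m - m))
        rw [hf.1 d e, Subgroup.coe_mul, a_mul, map_sub, map_sub]
        abel) (by
        intro c hc
        change f c - (a c m - m) = 0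
        rw [sub_eq_zero]
        exact hm' ⟨c, hc⟩)
    have h3 : (N.subgroupOf H).index • ((⟨f, hf⟩ : L.Z H) : L.Sh H) =
        (((N.subgroupOf H).index • (⟨f, hf⟩ : L.Z H) : L.Z H) : L.Sh H) :=
      (map_nsmul (QuotientAddGroup.mk' ((Bd a H).addSubgroupOf (L.Z H))) _ _).symm
    rw [h3, QuotientAddGroup.eq_zero_iff]
    refine ⟨(N.subgroupOf H).index • m - S, fun σ => ?_⟩
    change (N.subgroupOf H).index • f σ = _
    have h4 := hS σ
    change (N.subgroupOf H).index • (f σ - (a σ m - m)) = S - a σ S at h4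
    rw [smul_sub, smul_sub, sub_eq_iff_eq_add] at h4
    rw [h4, map_sub, map_nsmul]
    abel

end Pool.Agent.U10.Sha
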