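import Pool.Agent.U10.Sha.Fld

/-!
The Tate-Shafarevich groups of an elliptic curve over the extensions of a number field.
-/

set_option linter.unusedSectionVars false
set_option linter.style.haveILetI false

open WeierstrassCurve Module IntermediateField

namespace Pool.Agent.U10.Sha

/-- Local constancy of the restriction. -/
theorem lc_rs {G M : Type*} [Group G] [TopologicalSpace G] {N H : Subgroup G} (h : N ≤ H)
    {f : H → M} (hf : IsLocallyConstant f) : IsLocallyConstant (rs h f) :=
  hf.comp_continuous (Continuous.subtype_mk continuous_subtype_val _)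

theorem lc_cj {G M : Type*} [Group G] [TopologicalSpace G] [IsTopologicalGroup G]
    [AddCommGroup M] (a : G →* AddMonoid.End M) (N : Subgroup G) [hN : N.Normal] (g : G)
    {f : N → M} (hf : IsLocallyConstant f) : IsLocallyConstant (cj a N g f) := by
  have h1 : Continuous (fun n : N => (⟨g⁻¹ * n * g, by simpa using hN.conj_mem n n.2 g⁻¹⟩ : N)) :=
    Continuous.subtype_mk ((continuous_const.mul continuous_subtype_val).mul continuous_const) _
  exact (hf.comp_continuous h1).comp (a g)

variable {k : Type} [Field k] [NumberField k]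

/-- The function `f` on the subgroup `H` of `Gal(k̄/k)` becomes a coboundary over the extension `kv`
of `k`, at all embeddings `ι` of `k̄` in the algebraic closure of `kv`: there is a point `P` with
`ι (f σ) = τ P - P` for all automorphisms `τ` of the closure over `kv` and `σ ∈ H` with `τ ι = ι σ`.
(If `H` belongs to the field `K` and `kv` is the completion `k_v`, these `τ` are the automorphisms
over the completion of `K` at the place given by `ι`.) -/
def TrivialAt (W : WeierstrassCurve k) (H : Subgroup (AlgebraicClosure k ≃ₐ[k] AlgebraicClosure k))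
    (f : H → Pts W (AlgebraicClosure k)) (kv : Type) [Field kv] [Algebra k kv] : Prop :=
  ∀ ι : AlgebraicClosure k →ₐ[k] AlgebraicClosure kv, LocAt W kv H ι f

/-- The function `f` is locally constant and becomes a coboundary at all places. -/
def IsLocTriv (W : WeierstrassCurve k) (H : Subgroup (AlgebraicClosure k ≃ₐ[k] AlgebraicClosure k))
    (f : H → Pts W (AlgebraicClosure k)) : Prop :=
  IsLocallyConstant f ∧
  (∀ v : IsDedekindDomain.HeightOneSpectrum (NumberField.RingOfIntegers k),
    TrivialAt W H f (v.adicCompletion k)) ∧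
  (∀ v : NumberField.InfinitePlace k, TrivialAt W H f v.Completion)

theorem ilt_add {W : WeierstrassCurve k}
    {H : Subgroup (AlgebraicClosure k ≃ₐ[k] AlgebraicClosure k)}
    {f g : H → Pts W (AlgebraicClosure k)} (hf : IsLocTriv W H f) (hg : IsLocTriv W H g) :
    IsLocTriv W H (f + g) :=
  ⟨hf.1.add hg.1, fun v ι => locAt_add (hf.2.1 v ι) (hg.2.1 v ι),
        fun v ι => locAt_add (hf.2.2 v ι) (hg.2.2 v ι)⟩

theorem ilt_zero (W : WeierstrassCurve k)
    (H : Subgroup (AlgebraicClosure k ≃ₐ[k] AlgebraicClosure k)) :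
    IsLocTriv W H 0 :=
  ⟨IsLocallyConstant.const 0, fun _ _ => locAt_zero, fun _ _ => locAt_zero⟩

theorem ilt_neg {W : WeierstrassCurve k}
    {H : Subgroup (AlgebraicClosure k ≃ₐ[k] AlgebraicClosure k)}
    {f : H → Pts W (AlgebraicClosure k)} (hf : IsLocTriv W H f) : IsLocTriv W H (-f) :=
  ⟨hf.1.neg, fun v ι => locAt_neg (hf.2.1 v ι), fun v ι => locAt_neg (hf.2.2 v ι)⟩

/-- The group of these functions. -/
noncomputable def locTriv (W : WeierstrassCurve k)
    (H : Subgroup (AlgebraicClosure k ≃ₐ[k] AlgebraicClosure k)) :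
    AddSubgroup (H → Pts W (AlgebraicClosure k)) where
  carrier := {f | IsLocTriv W H f}
  add_mem' := ilt_add
  zero_mem' := ilt_zero W H
  neg_mem' := ilt_neg

theorem lt_res (W : WeierstrassCurve k)
    {N H : Subgroup (AlgebraicClosure k ≃ₐ[k] AlgebraicClosure k)} (h : N ≤ H)
    (f : H → Pts W (AlgebraicClosure k)) (hf : f ∈ locTriv W H) : rs h f ∈ locTriv W N :=
  ⟨lc_rs h hf.1, fun v ι => locAt_res h (hf.2.1 v ι), fun v ι => locAt_res h (hf.2.2 v ι)⟩

theorem lt_conj (W : WeierstrassCurve k)
    (N : Subgroup (AlgebraicClosure k ≃ₐ[k] AlgebraicClosure k)) [N.Normal]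
    (g : AlgebraicClosure k ≃ₐ[k] AlgebraicClosure k) (f : N → Pts W (AlgebraicClosure k))
    (hf : f ∈ locTriv W N) : cj (act W) N g f ∈ locTriv W N :=
  ⟨lc_cj _ N g hf.1, fun v ι => locAt_conj g (hf.2.1 v _), fun v ι => locAt_conj g (hf.2.2 v _)⟩

theorem lt_idx (W : WeierstrassCurve k)
    {N H : Subgroup (AlgebraicClosure k ≃ₐ[k] AlgebraicClosure k)} (h : N ≤ H) [N.Normal]
    [N.FiniteIndex] (f : H → Pts W (AlgebraicClosure k))
    (hop : IsOpen (N : Set (AlgebraicClosure k ≃ₐ[k] AlgebraicClosure k)))
    (hf : IsCoc (act W) H f) (hl : rs h f ∈ locTriv W N) :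
    (N.subgroupOf H).index • f ∈ locTriv W H :=
  ⟨(lc_idx h hop hf hl.1).comp (fun x => (N.subgroupOf H).index • x),
    fun v ι => locAt_idx h hf (hl.2.1 v ι), fun v ι => locAt_idx h hf (hl.2.2 v ι)⟩

/-- The conditions for `Ш`. -/
noncomputable def shaData (W : WeierstrassCurve k) :
    LocData (act W (A := AlgebraicClosure k)) where
  P := locTriv W
  res := lt_res W
  conj := lt_conj W
  idx := lt_idx W

end Pool.Agent.U10.Sha
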