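import Pool.Agent.U10.Sha.Ell
import Pool.Agent.U10.Sha.Gal

/-!
The local conditions for the Tate-Shafarevich groups of a commutative group functor over the
extensions of a field.
-/

set_option linter.unusedSectionVars false
set_option linter.style.haveILetI false

namespace Pool.Agent.U10.Sha.PF

open Pool.Agent.U10.Sha

/-- A functor from the field extensions of `k` to the commutative groups. -/
structure Fun (k : Type) [Field k] where
  obj : (F : Type) → [Field F] → [Algebra k F] → Type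
  [grp : ∀ (F : Type) [Field F] [Algebra k F], AddCommGroup (obj F)]
  map : {F F' : Type} → [Field F] → [Algebra k F] → [Field F'] → [Algebra k F'] →
    (F →ₐ[k] F') → (obj F →+ obj F')
  map_map : ∀ {F F' F'' : Type} [Field F] [Algebra k F] [Field F'] [Algebra k F'] [Field F'']
    [Algebra k F''] (φ : F →ₐ[k] F') (ψ : F' →ₐ[k] F'') (P : obj F),
    map ψ (map φ P) = map (ψ.comp φ) P
  map_id : ∀ {F : Type} [Field F] [Algebra k F] (P : obj F), map (AlgHom.id k F) P = P

attribute [instance] Fun.grp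

section

variable {k : Type} [Field k]

variable {A : Type} [Field A] [Algebra k A] (Φ : Fun k)

/-- The action of the automorphisms of `A` on the points. -/
noncomputable def act : (A ≃ₐ[k] A) →* AddMonoid.End (Φ.obj A) where
  toFun σ := Φ.map σ.toAlgHom
  map_one' := by
    ext P
    exact Φ.map_id P
  map_mul' σ τ := by
    ext P
    exact (Φ.map_map τ.toAlgHom σ.toAlgHom P).symm

variable {Φ}
variable {kv B : Type} [Field kv] [Algebra k kv] [Field B] [Algebra kv B] [Algebra k B]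
  [IsScalarTower k kv B]

variable (Φ kv) in
/-- The function `f` on the subgroup `H` becomes a coboundary over `B` at the embedding `ι`. -/
def LocAt (H : Subgroup (A ≃ₐ[k] A)) (ι : A →ₐ[k] B) (f : H → Φ.obj A) : Prop :=
  ∃ P : Φ.obj B, ∀ (τ : B ≃ₐ[kv] B) (σ : H), (∀ x, τ (ι x) = ι (σ.1 x)) →
    Φ.map ι (f σ) = Φ.map (τ.toAlgHom.restrictScalars k) P - P

variable {H N : Subgroup (A ≃ₐ[k] A)} {ι : A →ₐ[k] B}

theorem locAt_zero : LocAt Φ kv H ι 0 :=
  ⟨0, fun τ σ _ => by rw [Pi.zero_apply, map_zero, map_zero, sub_zero]⟩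

theorem locAt_add {f g : H → Φ.obj A} (hf : LocAt Φ kv H ι f)
    (hg : LocAt Φ kv H ι g) : LocAt Φ kv H ι (f + g) := by
  obtain ⟨P, hP⟩ := hf
  obtain ⟨Q, hQ⟩ := hg
  refine ⟨P + Q, fun τ σ h => ?_⟩
  rw [Pi.add_apply, map_add, hP τ σ h, hQ τ σ h, map_add]
  abel

theorem locAt_neg {f : H → Φ.obj A} (hf : LocAt Φ kv H ι f) :
    LocAt Φ kv H ι (-f) := by
  obtain ⟨P, hP⟩ := hf
  refine ⟨-P, fun τ σ h => ?_⟩
  rw [Pi.neg_apply, map_neg, hP τ σ h, map_neg]
  abel

theorem locAt_res (h : N ≤ H) {f : H → Φ.obj A}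
    (hf : LocAt Φ kv H ι f) : LocAt Φ kv N ι (rs h f) := by
  obtain ⟨P, hP⟩ := hf
  exact ⟨P, fun τ σ hh => hP τ (Subgroup.inclusion h σ) hh⟩

theorem locAt_conj [hN : N.Normal] (g : A ≃ₐ[k] A) {f : N → Φ.obj A}
    (hf : LocAt Φ kv N (ι.comp g.toAlgHom) f) : LocAt Φ kv N ι (cj (act Φ) N g f) := by
  obtain ⟨P, hP⟩ := hf
  refine ⟨P, fun τ σ hh => ?_⟩
  have h1 := hP τ ⟨g⁻¹ * σ * g, by simpa using hN.conj_mem σ σ.2 g⁻¹⟩ (by
    intro x
    have h2 := hh (g x)
    change τ (ι (g x)) = ι (g (g⁻¹ (σ.1 (g x))))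
    rw [h2]
    congr 1
    exact (AlgEquiv.apply_symm_apply g _).symm)
  rw [← h1]
  change Φ.map ι (Φ.map g.toAlgHom _) = _
  rw [Φ.map_map]

/-- The pairs of compatible automorphisms. -/
def DD (kv : Type) [Field kv] [Algebra k kv] [Algebra kv B] [IsScalarTower k kv B]
    (H : Subgroup (A ≃ₐ[k] A)) (ι : A →ₐ[k] B) : Subgroup ((B ≃ₐ[kv] B) × H) where
  carrier := {x | ∀ z, x.1 (ι z) = ι (x.2.1 z)}
  mul_mem' := by
    intro x y hx hy z
    change x.1 (y.1 (ι z)) = ι (x.2.1 (y.2.1 z))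
    rw [hy z, hx]
  one_mem' := by
    intro z
    rfl
  inv_mem' := by
    intro x hx z
    have h1 := hx (x.2.1⁻¹ z)
    change x.1⁻¹ (ι z) = ι (x.2.1⁻¹ z)
    have h2 : x.2.1 (x.2.1⁻¹ z) = z := AlgEquiv.apply_symm_apply x.2.1 z
    rw [h2] at h1
    rw [← h1]
    exact AlgEquiv.symm_apply_apply x.1 _

theorem locAt_idx (h : N ≤ H) [hN : N.Normal] [hfi : N.FiniteIndex]
    {f : H → Φ.obj A} (hf : IsCoc (act Φ) H f)
    (hl : LocAt Φ kv N ι (rs h f)) : LocAt Φ kv H ι ((N.subgroupOf H).index • f) := by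
  classical
  obtain ⟨P, hP⟩ := hl
  let π : DD kv H ι →* H := (MonoidHom.snd _ _).comp (DD kv H ι).subtype
  let aB : DD kv H ι →* AddMonoid.End (Φ.obj B) :=
    { toFun := fun x => Φ.map (x.1.1.toAlgHom.restrictScalars k)
      map_one' := by
        ext P
        exact Φ.map_id P
      map_mul' := fun x y => by
        ext P
        exact (Φ.map_map (y.1.1.toAlgHom.restrictScalars k) (x.1.1.toAlgHom.restrictScalars k)
          P).symm }
  let C : Subgroup (DD kv H ι) := (N.subgroupOf H).comap π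
  have hdvd : C.index ∣ (N.subgroupOf H).index := by
    have h1 : C.index = (N.subgroupOf H).relIndex π.range := Subgroup.index_comap _ _
    rw [h1]
    exact Subgroup.relIndex_dvd_index_of_normal _ _
  haveI : C.FiniteIndex := ⟨fun h0 => by
    rw [h0, zero_dvd_iff] at hdvd
    exact index_pos hdvd⟩
  obtain ⟨c, hc⟩ := hdvd
  obtain ⟨S, hS⟩ := killed aB C
    (fun x => Φ.map ι (f (π x)) - (aB x P - P)) (by
      intro x y
      have h1 : Φ.map ι (act Φ ((π x : H) : A ≃ₐ[k] A) (f (π y))) =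
          aB x (Φ.map ι (f (π y))) := by
        change Φ.map ι (Φ.map _ _) = Φ.map _ (Φ.map ι _)
        rw [Φ.map_map, Φ.map_map]
        have h2 : (x.1.1.toAlgHom.restrictScalars k).comp ι =
          ι.comp ((π x : H) : A ≃ₐ[k] A).toAlgHom := AlgHom.ext x.2
        rw [h2]
      change Φ.map ι (f (π (x * y))) - (aB (x * y) P - P) =
        Φ.map ι (f (π x)) - (aB x P - P) +
          aB x (Φ.map ι (f (π y)) - (aB y P - P))
      rw [map_mul π, hf, map_add, h1, map_mul aB, map_sub, map_sub]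
      change _ + _ - (aB x (aB y P) - P) = _
      abel) (by
      intro x hx
      change Φ.map ι (f (π x)) - (aB x P - P) = 0
      rw [sub_eq_zero]
      exact hP x.1.1 ⟨_, hx⟩ x.2)
  refine ⟨(N.subgroupOf H).index • P - c • S, fun τ σ hh => ?_⟩
  have h1 := hS ⟨(τ, σ), hh⟩
  have h2 : C.index • (Φ.map ι (f σ) -
      (Φ.map (τ.toAlgHom.restrictScalars k) P - P)) =
      S - Φ.map (τ.toAlgHom.restrictScalars k) S := h1
  have h3 : (N.subgroupOf H).index • (Φ.map ι (f σ) -
      (Φ.map (τ.toAlgHom.restrictScalars k) P - P)) =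
      c • (S - Φ.map (τ.toAlgHom.restrictScalars k) S) := by
    rw [← h2, ← mul_smul, hc, mul_comm]
  rw [Pi.smul_apply, map_nsmul, map_sub, map_nsmul, map_nsmul]
  rw [smul_sub, smul_sub, smul_sub, sub_eq_iff_eq_add] at h3
  rw [h3]
  abel

end

end Pool.Agent.U10.Sha.PF
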