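import Pool.Agent.U10.Sha.PF

/-!
The points of a commutative group scheme over a field with values in the extensions of the field.
-/

set_option linter.unusedSectionVars false
set_option linter.style.haveILetI false

open CategoryTheory AlgebraicGeometry MonoidalCategory CartesianMonoidalCategory MonObj

namespace Pool.Agent.U10.Sha

variable {k : Type} [Field k]

/-- The spectrum of the extension `F` of `k`, as a scheme over `k`. -/
noncomputable def spec (k : Type) [Field k] (F : Type) [Field F] [Algebra k F] :
    Over (Spec (CommRingCat.of k)) :=
  Over.mk (Spec.map (CommRingCat.ofHom (algebraMap k F)))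

/-- The morphism of the spectra given by a homomorphism of fields. -/
noncomputable def specMap {F F' : Type} [Field F] [Algebra k F] [Field F'] [Algebra k F']
    (φ : F →ₐ[k] F') : spec k F' ⟶ spec k F :=
  Over.homMk (Spec.map (CommRingCat.ofHom φ.toRingHom)) (by
    change Spec.map _ ≫ Spec.map _ = Spec.map _
    rw [← Spec.map_comp, ← CommRingCat.ofHom_comp]
    congr 2
    exact φ.comp_algebraMap)

/-- A commutative group scheme over the field `k`. -/
structure GrpSch (k : Type) [Field k] where
  X : Over (Spec (CommRingCat.of k))
  [grp : GrpObj X]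
  [comm : IsCommMonObj X]

attribute [instance] GrpSch.grp GrpSch.comm

variable (A : GrpSch k)

/-- The set `A(F)` of the points of the commutative group scheme `A` with values in `F`: the morphisms
over `k`. -/
def HPts (F : Type) [Field F] [Algebra k F] : Type := spec k F ⟶ A.X

noncomputable instance instHPts (F : Type) [Field F] [Algebra k F] : CommGroup (HPts A F) :=
  (inferInstance : CommGroup (spec k F ⟶ A.X))

/-- The group `A(F)` of the points of the commutative group scheme `A` with values in `F`, written
additively. -/
def GPts (F : Type) [Field F] [Algebra k F] : Type := Additive (HPts A F)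

noncomputable instance instGPts (F : Type) [Field F] [Algebra k F] : AddCommGroup (GPts A F) :=
  (inferInstance : AddCommGroup (Additive (HPts A F)))

/-- The composition of a point with the morphism of the spectra. -/
noncomputable def pull {F F' : Type} [Field F] [Algebra k F] [Field F'] [Algebra k F']
    (φ : F →ₐ[k] F') (x : spec k F ⟶ A.X) : spec k F' ⟶ A.X := specMap φ ≫ x

/-- The map of points given by a homomorphism of fields. -/
noncomputable def gmFun {F F' : Type} [Field F] [Algebra k F] [Field F'] [Algebra k F']
    (φ : F →ₐ[k] F') (x : GPts A F) : GPts A F' := pull A φ x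

theorem gmFun_zero {F F' : Type} [Field F] [Algebra k F] [Field F'] [Algebra k F']
    (φ : F →ₐ[k] F') : gmFun A φ 0 = 0 :=
  congrArg Additive.ofMul (MonObj.comp_one (specMap φ))

theorem gmFun_add {F F' : Type} [Field F] [Algebra k F] [Field F'] [Algebra k F']
    (φ : F →ₐ[k] F') (x y : GPts A F) : gmFun A φ (x + y) = gmFun A φ x + gmFun A φ y :=
  congrArg Additive.ofMul (MonObj.comp_mul (specMap φ) _ _)

/-- The homomorphism of the groups of points given by a homomorphism of fields. -/
noncomputable def gm {F F' : Type} [Field F] [Algebra k F] [Field F'] [Algebra k F']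
    (φ : F →ₐ[k] F') : GPts A F →+ GPts A F' where
  toFun := gmFun A φ
  map_zero' := gmFun_zero A φ
  map_add' := gmFun_add A φ

theorem gm_gm {F F' F'' : Type} [Field F] [Algebra k F] [Field F'] [Algebra k F'] [Field F'']
    [Algebra k F''] (φ : F →ₐ[k] F') (ψ : F' →ₐ[k] F'') (P : GPts A F) :
    gm A ψ (gm A φ P) = gm A (ψ.comp φ) P := by
  change specMap ψ ≫ (specMap φ ≫ Additive.toMul P) = specMap (ψ.comp φ) ≫ Additive.toMul P
  rw [← Category.assoc]
  congr 1
  apply Over.OverMorphism.ext
  change Spec.map _ ≫ Spec.map _ = Spec.map _
  rw [← Spec.map_comp, ← CommRingCat.ofHom_comp]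
  rfl

theorem gm_id {F : Type} [Field F] [Algebra k F] (P : GPts A F) : gm A (AlgHom.id k F) P = P := by
  change specMap (AlgHom.id k F) ≫ Additive.toMul P = Additive.toMul P
  have h1 : specMap (AlgHom.id k F) = 𝟙 (spec k F) := by
    apply Over.OverMorphism.ext
    change Spec.map (𝟙 (CommRingCat.of F)) = 𝟙 _
    exact Spec.map_id _
  rw [h1]
  exact Category.id_comp (X := spec k F) (Y := A.X) _

/-- The functor of points. -/
noncomputable def gFun : PF.Fun k where
  obj F := GPts A F
  grp F := instGPts A F
  map φ := gm A φ
  map_map := gm_gm A
  map_id := gm_id A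

end Pool.Agent.U10.Sha
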