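import Pool.Agent.U10.Sha.Coc

/-!
The ranks of the Tate modules of the groups of classes.
-/

set_option linter.unusedSectionVars false
set_option linter.style.haveILetI false

namespace Pool.Agent.U10.Sha

open Pool.Agent.N171

/-- The quotient of `Z` by `B ∩ Z`. -/
def Quo {V : Type*} [AddCommGroup V] (Z B : AddSubgroup V) : Type _ := Z ⧸ B.addSubgroupOf Z

instance {V : Type*} [AddCommGroup V] (Z B : AddSubgroup V) : AddCommGroup (Quo Z B) :=
  (inferInstance : AddCommGroup (Z ⧸ B.addSubgroupOf Z))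

/-- The `p`-corank of the group `Z / (B ∩ Z)`: the rank over `ℤ_p` of its Tate module, the module of
the sequences `x` with `x_0 = 0` and `p x_(n+1) = x_n`. -/
noncomputable def crk (p : ℕ) [Fact p.Prime] {V : Type*} [AddCommGroup V] (Z B : AddSubgroup V) :
    Cardinal :=
  Module.rank ℤ_[p] (TateMod p (Quo Z B))

variable {G M : Type*} [Group G] [TopologicalSpace G] [AddCommGroup M] {a : G →* AddMonoid.End M}
  (L : LocData a) (p : ℕ) [hp : Fact p.Prime]

theorem cj_mul (N : Subgroup G) [hN : N.Normal] (g h : G) (f : N → M) :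
    cj a N (g * h) f = cj a N g (cj a N h f) := by
  funext n
  unfold cj
  rw [a_mul]
  congr 2
  congr 1
  apply Subtype.ext
  simp [mul_assoc]

theorem cj'_mul (N : Subgroup G) [hN : N.Normal] (g h : G) (x : L.Sh N) :
    L.cj' N (g * h) x = L.cj' N g (L.cj' N h x) := by
  induction x using QuotientAddGroup.induction_on with
  | H f =>
    have h1 : L.cj' N (g * h) (f : L.Sh N) =
      ((⟨cj a N (g * h) f.1, cj_coc N _ f.2.1, L.conj N _ f.1 f.2.2⟩ : L.Z N) : L.Sh N) := rfl
    have h2 : L.cj' N g (L.cj' N h (f : L.Sh N)) =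
      ((⟨cj a N g (cj a N h f.1), cj_coc N _ (cj_coc N _ f.2.1),
        L.conj N _ _ (L.conj N _ f.1 f.2.2)⟩ : L.Z N) : L.Sh N) := rfl
    rw [h1, h2]
    congr 1
    apply Subtype.ext
    exact cj_mul N g h f.1

theorem cj'_one (N : Subgroup G) [hN : N.Normal] (x : L.Sh N) : L.cj' N 1 x = x := by
  induction x using QuotientAddGroup.induction_on with
  | H f =>
    have h1 : L.cj' N 1 (f : L.Sh N) =
      ((⟨cj a N 1 f.1, cj_coc N _ f.2.1, L.conj N _ f.1 f.2.2⟩ : L.Z N) : L.Sh N) := rfl
    rw [h1]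
    congr 1
    apply Subtype.ext
    funext n
    change a 1 (f.1 ⟨1⁻¹ * n * 1, _⟩) = f.1 n
    rw [map_one]
    have h2 : (⟨(1 : G)⁻¹ * n * 1, by simpa using n.2⟩ : N) = n := by
      apply Subtype.ext
      simp
    exact congrArg f.1 h2

/-- The Tate module of the group of classes. -/
abbrev LocData.T (H : Subgroup G) : Type _ := TateMod p (L.Sh H)

/-- The invariant elements. -/
def LocData.inv (N : Subgroup G) [hN : N.Normal] (H : Subgroup G) : Submodule ℤ_[p] (L.T p N) where
  carrier := {x | ∀ h ∈ H, tmMap (L.cj' N h) x = x}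
  add_mem' := by
    intro x y hx hy h hh
    rw [map_add, hx h hh, hy h hh]
  zero_mem' := by
    intro h _
    rw [map_zero]
  smul_mem' := by
    intro c x hx h hh
    rw [map_smul, hx h hh]

variable {p} in
theorem mem_inv {N : Subgroup G} [hN : N.Normal] {H : Subgroup G} {x : L.T p N} :
    x ∈ L.inv p N H ↔ ∀ h ∈ H, tmMap (L.cj' N h) x = x := Iff.rfl

theorem inv_sup (N : Subgroup G) [hN : N.Normal] (H K : Subgroup G) :
    L.inv p N (H ⊔ K) = L.inv p N H ⊓ L.inv p N K := by
  apply le_antisymm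
  · exact le_inf (fun x hx h hh => hx h (Subgroup.mem_sup_left hh))
      (fun x hx h hh => hx h (Subgroup.mem_sup_right hh))
  · intro x hx
    let S : Subgroup G :=
      { carrier := {g | tmMap (L.cj' N g) x = x}
        mul_mem' := by
          intro g h hg hh
          change tmMap (L.cj' N (g * h)) x = x
          have h1 : tmMap (L.cj' N (g * h)) x = tmMap (L.cj' N g) (tmMap (L.cj' N h) x) := by
            apply tm_ext
            intro n
            exact cj'_mul L N g h _
          rw [h1, hh, hg]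
        one_mem' := by
          apply tm_ext
          intro n
          exact cj'_one L N _
        inv_mem' := by
          intro g hg
          change tmMap (L.cj' N g⁻¹) x = x
          have h1 : tmMap (L.cj' N g⁻¹) (tmMap (L.cj' N g) x) = x := by
            apply tm_ext
            intro n
            have h2 := cj'_mul L N g⁻¹ g (x.1 n)
            rw [inv_mul_cancel, cj'_one] at h2
            exact h2.symm
          rw [hg] at h1
          exact h1 }
    have h1 : H ⊔ K ≤ S := sup_le (fun h hh => hx.1 h hh) (fun h hh => hx.2 h hh)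
    exact fun h hh => h1 hh

theorem inv_anti (N : Subgroup G) [hN : N.Normal] {H K : Subgroup G} (h : H ≤ K) :
    L.inv p N K ≤ L.inv p N H := fun _ hx g hg => hx g (h hg)

/-- The corank. -/
noncomputable def LocData.cr (H : Subgroup G) : Cardinal := Module.rank ℤ_[p] (L.T p H)

theorem index_pos {N H : Subgroup G} [hf : N.FiniteIndex] : (N.subgroupOf H).index ≠ 0 :=
  Subgroup.FiniteIndex.index_ne_zero

theorem res_inj {N H : Subgroup G} (h : N ≤ H) [hf : N.FiniteIndex] :
    Function.Injective (tmMap (p := p) (L.res' h)) := by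
  rw [← LinearMap.ker_eq_bot, LinearMap.ker_eq_bot']
  intro x hx
  have h1 : ((N.subgroupOf H).index : ℤ_[p]) • x = 0 := by
    rw [tm_natCast_smul]
    apply tm_ext
    intro n
    change (N.subgroupOf H).index • x.1 n = 0
    apply res_killed L h
    exact congrArg (fun y : L.T p N => y.1 n) hx
  rcases smul_eq_zero.1 h1 with h2 | h2
  · exact absurd (Nat.cast_eq_zero.1 h2) index_pos
  · exact h2

theorem range_le_inv {N H : Subgroup G} (h : N ≤ H) [hN : N.Normal] :
    LinearMap.range (tmMap (p := p) (L.res' h)) ≤ L.inv p N H := by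
  rintro _ ⟨x, rfl⟩ g hg
  apply tm_ext
  intro n
  exact cj_res L h g hg _

theorem smul_inv {N H : Subgroup G} (h : N ≤ H) [hN : N.Normal] [hf : N.FiniteIndex]
    (hop : IsOpen (N : Set G)) {x : L.T p N} (hx : x ∈ L.inv p N H) :
    (((N.subgroupOf H).index ^ 2 : ℕ) : ℤ_[p]) • x ∈ LinearMap.range (tmMap (p := p) (L.res' h)) := by
  classical
  haveI : Fintype (H ⧸ N.subgroupOf H) := Fintype.ofFinite _
  refine ⟨tmMap (L.co' h hop) x, ?_⟩
  rw [tm_natCast_smul]
  apply tm_ext
  intro n
  change L.res' h (L.co' h hop (x.1 n)) = (N.subgroupOf H).index ^ 2 • x.1 n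
  rw [res_co]
  have h1 : ∀ q : H ⧸ N.subgroupOf H, L.cj' N ((rp q : H) : G) (x.1 n) = x.1 n := by
    intro q
    exact congrArg (fun y : L.T p N => y.1 n) (hx _ (rp q).2)
  rw [Finset.sum_congr rfl (fun q _ => h1 q), Finset.sum_const, Finset.card_univ, ← mul_smul, sq]
  congr 2
  rw [Subgroup.index, Nat.card_eq_fintype_card]

theorem cr_eq {N H : Subgroup G} (h : N ≤ H) [hN : N.Normal] [hf : N.FiniteIndex]
    (hop : IsOpen (N : Set G)) : L.cr p H = Module.rank ℤ_[p] (L.inv p N H) := by
  unfold LocData.cr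
  apply le_antisymm
  · rw [← rank_range_of_injective _ (res_inj L p h)]
    exact Submodule.rank_mono (range_le_inv L p h)
  · set k : ℤ_[p] := (((N.subgroupOf H).index ^ 2 : ℕ) : ℤ_[p]) with hk
    have hk0 : k ≠ 0 := by
      rw [hk]
      exact Nat.cast_ne_zero.2 (pow_ne_zero _ index_pos)
    let φ : L.inv p N H →ₗ[ℤ_[p]] LinearMap.range (tmMap (p := p) (L.res' h)) :=
      LinearMap.codRestrict _ (k • (L.inv p N H).subtype) (fun x => smul_inv L p h hop x.2)
    have hφ : Function.Injective φ := by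
      rw [← LinearMap.ker_eq_bot, LinearMap.ker_eq_bot']
      intro x hx
      have h1 : k • (x : L.T p N) = 0 := congrArg Subtype.val hx
      rcases smul_eq_zero.1 h1 with h2 | h2
      · exact absurd h2 hk0
      · exact Subtype.ext h2
    refine (LinearMap.rank_le_of_injective φ hφ).trans ?_
    rw [rank_range_of_injective _ (res_inj L p h)]

theorem cr_super {H K : Subgroup G} (N : Subgroup G) [hN : N.Normal] [hf : N.FiniteIndex]
    (hop : IsOpen (N : Set G)) (hH : N ≤ H) (hK : N ≤ K) :
    L.cr p H + L.cr p K ≤ L.cr p (H ⊓ K) + L.cr p (H ⊔ K) := by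
  rw [cr_eq L p hH hop, cr_eq L p hK hop, cr_eq L p (le_inf hH hK) hop,
    cr_eq L p (hH.trans le_sup_left) hop, inv_sup, ← Submodule.rank_sup_add_rank_inf_eq]
  exact add_le_add_left (Submodule.rank_mono
    (sup_le (inv_anti L p N inf_le_left) (inv_anti L p N inf_le_right))) _

theorem cr_anti {H K : Subgroup G} (N : Subgroup G) [hN : N.Normal] [hf : N.FiniteIndex]
    (hop : IsOpen (N : Set G)) (hH : N ≤ H) (hK : H ≤ K) :
    L.cr p K ≤ L.cr p H := by
  rw [cr_eq L p hH hop, cr_eq L p (hH.trans hK) hop]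
  exact Submodule.rank_mono (inv_anti L p N hK)

/-- The corank of a conjugate subgroup. -/
theorem cr_conj_le {H K : Subgroup G} (N : Subgroup G) [hN : N.Normal] [hf : N.FiniteIndex]
    (hop : IsOpen (N : Set G)) (hH : N ≤ H) (hNK : N ≤ K) (g : G)
    (hK : ∀ k ∈ K, g⁻¹ * k * g ∈ H) : L.cr p H ≤ L.cr p K := by
  rw [cr_eq L p hH hop, cr_eq L p hNK hop]
  let φ : L.inv p N H →ₗ[ℤ_[p]] L.inv p N K :=
    LinearMap.codRestrict _ ((tmMap (L.cj' N g)).comp (L.inv p N H).subtype) (fun x k hk => by
      apply tm_ext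
      intro n
      change L.cj' N k (L.cj' N g (x.1.1 n)) = L.cj' N g (x.1.1 n)
      have h1 := congrArg (fun y : L.T p N => y.1 n) (x.2 _ (hK k hk))
      have h2 : L.cj' N (g⁻¹ * k * g) (x.1.1 n) = x.1.1 n := h1
      conv_rhs => rw [← h2]
      rw [← cj'_mul, ← cj'_mul]
      congr 2
      group)
  have hφ : Function.Injective φ := by
    rw [← LinearMap.ker_eq_bot, LinearMap.ker_eq_bot']
    intro x hx
    have h1 : tmMap (L.cj' N g) (x : L.T p N) = 0 := congrArg Subtype.val hx
    apply Subtype.ext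
    apply tm_ext
    intro n
    have h2 : L.cj' N g (x.1.1 n) = 0 := congrArg (fun y : L.T p N => y.1 n) h1
    have h3 := cj'_mul L N g⁻¹ g (x.1.1 n)
    rw [inv_mul_cancel, cj'_one, h2, map_zero] at h3
    exact h3
  exact LinearMap.rank_le_of_injective φ hφ

end Pool.Agent.U10.Sha
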